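import Pool.Agent.Helper99.LCY.Kum

/-!
Ramification and the value of the 2-form in extensions (block COV of MP_f7e214_ag).
-/

open Polynomial

set_option linter.unusedSectionVars false

namespace LCY

noncomputable section

/-- The value of the 2-form at `v` is `k`, in the strong sense. -/
def GoodWt {L : Type} [Field L] [Algebra ℂ L] (ω : Bracket L) (v : DVal L) (k : ℤ) : Prop :=
  (∀ t π, ResTr v.v t → π ≠ 0 → v.v π = 1 → ω.br t π ≠ 0 ∧ v.v (ω.br t π) = -k) ∧
  (∀ t a, ResTr v.v t → v.Int a → ω.br t a = 0 ∨ -k ≤ v.v (ω.br t a))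

/-- Every divisorial valuation has a value of the 2-form in the strong sense. -/
def ST_BR8s : Prop := ∀ (L : Type) [Field L] [Algebra ℂ L],
  (∃ s : Finset L, IntermediateField.adjoin ℂ (s : Set L) = ⊤) → Algebra.trdeg ℂ L = 2 →
  ∀ (ω : Bracket L) (v : DVal L), ∃ k : ℤ, GoodWt ω v k

section one

variable {L : Type} [Field L] [Algebra ℂ L] {ω : Bracket L} {v : DVal L} {k : ℤ}

theorem GoodWt.wt (h : GoodWt ω v k) : ω.Wt v k := by
  obtain ⟨t, ht⟩ := v.exists_res
  obtain ⟨π, hπ, hv⟩ := v.exists_unif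
  obtain ⟨h1, h2⟩ := h.1 t π ht hπ hv
  exact ⟨t, π, ht, hπ, hv, h1, h2⟩

theorem GoodWt.unique (h : GoodWt ω v k) {l : ℤ} (hl : ω.Wt v l) : l = k := by
  obtain ⟨t, π, ht, hπ, hv, h1, h2⟩ := hl
  have := (h.1 t π ht hπ hv).2
  omega

theorem DVal.val_add_of_lt (v : DVal L) {a b : L} (ha : a ≠ 0) (hb : b = 0 ∨ v.v a < v.v b) :
    a + b ≠ 0 ∧ v.v (a + b) = v.v a := by
  have h1 : v.Pos (b / a) := by
    rcases hb with hb | hb
    · left; rw [hb, zero_div]
    · by_cases hb0 : b = 0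
      · left; rw [hb0, zero_div]
      · right; rw [v.map_div hb0 ha]; omega
  obtain ⟨h2, h3⟩ := v.val_add_pos one_ne_zero v.map_one h1
  have h4 : a + b = a * (1 + b / a) := by field_simp
  rw [h4]
  exact ⟨mul_ne_zero ha h2, by rw [v.map_mul _ _ ha h2, h3, add_zero]⟩

theorem Bracket.sum_right {ι : Type} (ω : Bracket L) (s : Finset ι) (f : ι → L) (c : L) :
    ω.br c (∑ i ∈ s, f i) = ∑ i ∈ s, ω.br c (f i) := by
  classical
  induction s using Finset.induction_on with
  | empty => rw [Finset.sum_empty, Finset.sum_empty, ω.zero_right]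
  | insert a s ha ih => rw [Finset.sum_insert ha, Finset.sum_insert ha, ω.add_right, ih]

theorem Bracket.pow_right (ω : Bracket L) (a b : L) (n : ℕ) :
    ω.br b (a ^ n) = n * a ^ (n - 1) * ω.br b a := by
  rw [ω.skew, ω.pow_left, ω.skew a b]; ring

theorem DVal.map_natCast (v : DVal L) {n : ℕ} (hn : n ≠ 0) : v.v (n : L) = 0 := by
  have := v.map_const (n : ℂ) (by exact_mod_cast hn)
  simpa using this

theorem natCast_ne (L : Type) [Field L] [Algebra ℂ L] {n : ℕ} (hn : n ≠ 0) : (n : L) ≠ 0 := by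
  have : CharZero L := charZero_of_injective_algebraMap (algebraMap ℂ L).injective
  exact_mod_cast hn

/-- The value of the bracket of a residually transcendental element with an element of
nonzero value. -/
theorem GoodWt.br_val (h : GoodWt ω v k) {t c : L} (ht : ResTr v.v t) (hc : c ≠ 0) {n : ℕ}
    (hn : n ≠ 0) (hv : v.v c = n) : ω.br t c ≠ 0 ∧ v.v (ω.br t c) = n - 1 - k := by
  obtain ⟨π, hπ, hvπ⟩ := v.exists_unif
  set w := c / π ^ n with hw
  have hπn : π ^ n ≠ 0 := pow_ne_zero _ hπ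
  have hw0 : w ≠ 0 := div_ne_zero hc hπn
  have hcw : c = w * π ^ n := by rw [hw, div_mul_cancel₀ _ hπn]
  have hvw : v.v w = 0 := by rw [hw, v.map_div hc hπn, v.map_pow hπ, hv, hvπ]; ring
  obtain ⟨h1, h2⟩ := h.1 t π ht hπ hvπ
  have hnL : (n : L) ≠ 0 := natCast_ne L hn
  have e1 : ω.br t c = (w * ((n : L) * π ^ (n - 1) * ω.br t π)) + π ^ n * ω.br t w := by
    rw [hcw, ω.mul_right, ω.pow_right]
  have hne : w * ((n : L) * π ^ (n - 1) * ω.br t π) ≠ 0 :=
    mul_ne_zero hw0 (mul_ne_zero (mul_ne_zero hnL (pow_ne_zero _ hπ)) h1)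
  have hval : v.v (w * ((n : L) * π ^ (n - 1) * ω.br t π)) = n - 1 - k := by
    rw [v.map_mul _ _ hw0 (mul_ne_zero (mul_ne_zero hnL (pow_ne_zero _ hπ)) h1),
      v.map_mul _ _ (mul_ne_zero hnL (pow_ne_zero _ hπ)) h1,
      v.map_mul _ _ hnL (pow_ne_zero _ hπ), v.map_pow hπ, hvw, v.map_natCast hn, hvπ, h2]
    have : ((n - 1 : ℕ) : ℤ) = n - 1 := by omega
    rw [this]; ring
  have hlt : π ^ n * ω.br t w = 0 ∨
      v.v (w * ((n : L) * π ^ (n - 1) * ω.br t π)) < v.v (π ^ n * ω.br t w) := by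
    rcases h.2 t w ht (Or.inr hvw.ge) with h3 | h3
    · left; rw [h3, mul_zero]
    · by_cases h4 : ω.br t w = 0
      · left; rw [h4, mul_zero]
      · right
        rw [hval, v.map_mul _ _ hπn h4, v.map_pow hπ, hvπ]
        linarith
  obtain ⟨h5, h6⟩ := v.val_add_of_lt hne hlt
  rw [e1]
  exact ⟨h5, by rw [h6, hval]⟩

end one

variable {L : Type} [Field L] [Algebra ℂ L] {L' : Type} [Field L'] [Algebra ℂ L'] [Algebra L L']
  [IsScalarTower ℂ L L'] [Algebra.IsAlgebraic L L']

theorem DVal.Over.resTr {v' : DVal L'} {e : ℤ} {v : DVal L} (h : DVal.Over v' e v) {t : L}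
    (ht : ResTr v.v t) : ResTr v'.v (algebraMap L L' t) := by
  intro P hP
  obtain ⟨h1, h2⟩ := ht P hP
  rw [aeval_algebraMap_apply]
  exact ⟨by simpa using h1, by rw [h.2 _ h1, h2, mul_zero]⟩

theorem DVal.Over.resTr' {v' : DVal L'} {e : ℤ} {v : DVal L} (h : DVal.Over v' e v) {t : L}
    (ht : ResTr v'.v (algebraMap L L' t)) : ResTr v.v t := by
  intro P hP
  obtain ⟨h1, h2⟩ := ht P hP
  rw [aeval_algebraMap_apply] at h1 h2
  have h0 : aeval t P ≠ 0 := fun h0 => h1 (by rw [h0, map_zero])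
  rw [h.2 _ h0] at h2
  exact ⟨h0, (mul_eq_zero.1 h2).resolve_left h.1.ne'⟩

theorem DVal.Over.int_iff {v' : DVal L'} {e : ℤ} {v : DVal L} (h : DVal.Over v' e v) {a : L} :
    v'.Int (algebraMap L L' a) ↔ v.Int a := by
  unfold DVal.Int
  by_cases ha : a = 0
  · simp [ha]
  · have ha' : algebraMap L L' a ≠ 0 := by simpa using ha
    rw [h.2 a ha]
    constructor
    · rintro (h1 | h1)
      · exact absurd h1 ha'
      · right; exact nonneg_of_mul_nonneg_right h1 h.1
    · rintro (h1 | h1)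
      · exact absurd h1 ha
      · right; exact mul_nonneg h.1.le h1

theorem DVal.Over.pos_iff {v' : DVal L'} {e : ℤ} {v : DVal L} (h : DVal.Over v' e v) {a : L} :
    v'.Pos (algebraMap L L' a) ↔ v.Pos a := by
  unfold DVal.Pos
  by_cases ha : a = 0
  · simp [ha]
  · have ha' : algebraMap L L' a ≠ 0 := by simpa using ha
    rw [h.2 a ha]
    constructor
    · rintro (h1 | h1)
      · exact absurd h1 ha'
      · right; exact (mul_pos_iff_of_pos_left h.1).1 h1
    · rintro (h1 | h1)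
      · exact absurd h1 ha
      · right; exact mul_pos h.1 h1

/-- The formula for the value of the 2-form in an algebraic extension. -/
theorem wt_over {ω : Bracket L} {v : DVal L} {v' : DVal L'} {e k k' : ℤ} (h : GoodWt ω v k)
    (h' : GoodWt (ω.ext L') v' k') (ho : DVal.Over v' e v) : k' + 1 = e * (k + 1) := by
  obtain ⟨t, ht⟩ := v.exists_res
  obtain ⟨π, hπ, hv⟩ := v.exists_unif
  obtain ⟨h1, h2⟩ := h.1 t π ht hπ hv
  obtain ⟨n, rfl⟩ : ∃ n : ℕ, e = n := ⟨e.toNat, by rw [Int.toNat_of_nonneg ho.1.le]⟩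
  have hn : n ≠ 0 := by
    rintro rfl
    exact lt_irrefl _ ho.1
  have hπ' : algebraMap L L' π ≠ 0 := by simpa using hπ
  obtain ⟨h3, h4⟩ := h'.br_val (ho.resTr ht) hπ' hn (by rw [ho.2 _ hπ, hv, mul_one])
  rw [ω.ext_algebraMap, ho.2 _ h1, h2] at h4
  linarith

/-- Conjugate valuation. -/
def DVal.conj (v' : DVal L') (τ : L' →ₐ[L] L') (hτ : Function.Bijective τ) : DVal L' where
  v b := v'.v (τ b)
  map_mul a b ha hb := by
    rw [_root_.map_mul, v'.map_mul _ _ (by simpa using ha) (by simpa using hb)]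
  map_add a b ha hb hab := by
    rw [_root_.map_add]
    exact v'.map_add _ _ (by simpa using ha) (by simpa using hb)
      (by rw [← _root_.map_add, Ne, map_eq_zero]; exact hab)
  map_const c hc := by
    rw [IsScalarTower.algebraMap_apply ℂ L L', τ.commutes, ← IsScalarTower.algebraMap_apply ℂ L L',
      v'.map_const c hc]
  exists_unif := by
    obtain ⟨π, hπ, hv⟩ := v'.exists_unif
    obtain ⟨b, hb⟩ := hτ.2 π
    refine ⟨b, ?_, by rw [hb, hv]⟩
    rintro rfl
    rw [map_zero] at hb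
    exact hπ hb.symm
  exists_res := by
    obtain ⟨t, ht⟩ := exists_resTr_sub (L := L) v'
    refine ⟨algebraMap L L' t, fun P hP => ?_⟩
    obtain ⟨h1, h2⟩ := ht P hP
    rw [aeval_algebraMap_apply] at h1 h2 ⊢
    exact ⟨h1, by change v'.v (τ _) = 0; rw [τ.commutes, h2]⟩

/-- In a Kummer extension, a valuation at which `g` has a value divisible by the degree is
unramified. -/
theorem Kum.ram {m : ℕ} {g : L} (κ : Kum L L' m g) (hg : g ≠ 0) {ω : Bracket L} {v : DVal L}
    {v' : DVal L'} {e k k' : ℤ} (h : GoodWt ω v k) (h' : GoodWt (ω.ext L') v' k')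
    (ho : DVal.Over v' e v) (hm : (m : ℤ) ∣ v.v g) : e = 1 := by
  classical
  obtain ⟨q, hq⟩ := hm
  obtain ⟨t, ht⟩ := v.exists_res
  obtain ⟨π, hπ, hvπ⟩ := v.exists_unif
  obtain ⟨hB0, hB⟩ := h.1 t π ht hπ hvπ
  have ht' := ho.resTr ht
  have hm0 := κ.m_ne
  have hmL : (m : L) ≠ 0 := natCast_ne L hm0
  have hmL' : (m : L') ≠ 0 := natCast_ne L' hm0
  have hA : ∀ {a : L}, a ≠ 0 → algebraMap L L' a ≠ 0 := fun ha => by simpa using ha
  set c : L := π ^ (-q) with hc
  have hc0 : c ≠ 0 := zpow_ne_zero _ hπ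
  have hvc : v.v c = -q := by rw [hc, v.map_zpow hπ, hvπ]; ring
  set u : L := g * c ^ m with hu
  have hu0 : u ≠ 0 := mul_ne_zero hg (pow_ne_zero _ hc0)
  have hvu : v.v u = 0 := by
    rw [hu, v.map_mul _ _ hg (pow_ne_zero _ hc0), v.map_pow hc0, hq, hvc]; ring
  set θ : L' := κ.η * algebraMap L L' c with hθ
  have hη := κ.η_ne hg
  have hθ0 : θ ≠ 0 := mul_ne_zero hη (hA hc0)
  have hθm : θ ^ m = algebraMap L L' u := by
    rw [hθ, mul_pow, κ.pow, hu, _root_.map_mul, _root_.map_pow]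
  have hvθ : v'.v θ = 0 := by
    have h1 : v'.v (θ ^ m) = 0 := by rw [hθm, ho.2 _ hu0, hvu, mul_zero]
    rw [v'.map_pow hθ0] at h1
    exact (mul_eq_zero.1 h1).resolve_left (by exact_mod_cast hm0)
  -- the derivation
  set ω' := ω.ext L' with hω'
  set T : L' := algebraMap L L' t with hT
  set β : L' := algebraMap L L' (ω.br t π) with hβ
  have hβ0 : β ≠ 0 := hA hB0
  have hvβ : v'.v β = -(e * k) := by rw [hβ, ho.2 _ hB0, hB]; ring
  set D : L' → L' := fun b => ω'.br T b / β with hD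
  set S : L' → Prop := fun b => ∃ a : ℕ → L, (∀ j < m, v.Int (a j)) ∧
    b = ∑ j ∈ Finset.range m, algebraMap L L' (a j) * θ ^ j with hS
  have hSint : ∀ b, S b → v'.Int b := by
    rintro b ⟨a, ha, rfl⟩
    refine v'.int_sum _ _ fun j hj => ?_
    exact v'.int_mul (ho.int_iff.2 (ha j (Finset.mem_range.1 hj)))
      (v'.int_pow (Or.inr hvθ.ge) j)
  -- the derivative of the root
  have hDθ : ω'.br T θ = θ * algebraMap L L' (ω.br t u / ((m : L) * u)) := by
    have h1 : ω'.br T (θ ^ m) = (m : L') * θ ^ (m - 1) * ω'.br T θ := ω'.pow_right _ _ _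
    rw [hθm, hω', hT, ω.ext_algebraMap] at h1
    have h2 : θ ^ m = θ ^ (m - 1) * θ := by
      rw [← pow_succ, Nat.sub_add_cancel (Nat.one_le_iff_ne_zero.2 hm0)]
    have h3 : (m : L') * θ ^ (m - 1) ≠ 0 := mul_ne_zero hmL' (pow_ne_zero _ hθ0)
    apply mul_left_cancel₀ h3
    rw [← h1, map_div₀, _root_.map_mul, map_natCast, ← hθm, h2]
    field_simp
  have hDS : ∀ b, S b → S (D b) := by
    rintro b ⟨a, ha, rfl⟩
    refine ⟨fun j => ω.br t (a j) / ω.br t π +
      (j : L) * a j * (ω.br t u / ((m : L) * u)) / ω.br t π, ?_, ?_⟩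
    · intro j hj
      have h1 : ∀ z, v.Int z → v.Int (ω.br t z / ω.br t π) := by
        intro z hz
        rcases h.2 t z ht hz with h2 | h2
        · left; rw [h2, zero_div]
        · by_cases h3 : ω.br t z = 0
          · left; rw [h3, zero_div]
          · right; rw [v.map_div h3 hB0, hB]; linarith
      refine v.int_add (h1 _ (ha j hj)) ?_
      have h2 : (j : L) * a j * (ω.br t u / ((m : L) * u)) / ω.br t π =
          (j : L) * a j * (((m : L) * u)⁻¹ * (ω.br t u / ω.br t π)) := by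
        field_simp
      rw [h2]
      refine v.int_mul (v.int_mul ?_ (ha j hj)) (v.int_mul ?_ (h1 _ (Or.inr hvu.ge)))
      · have := v.int_const (j : ℂ)
        simpa using this
      · right
        rw [v.map_inv (mul_ne_zero hmL hu0), v.map_mul _ _ hmL hu0, v.map_natCast hm0, hvu]
        norm_num
    · rw [hD]
      dsimp only
      rw [ω'.sum_right, Finset.sum_div]
      refine Finset.sum_congr rfl fun j _ => ?_
      have hE : ∀ z w : L, algebraMap L L' (z / ω.br t π + w / ω.br t π) =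
          (algebraMap L L' z + algebraMap L L' w) / β := by
        intro z w
        rw [hβ, _root_.map_add, map_div₀, map_div₀, add_div]
      rw [hE, ω'.mul_right, ω'.pow_right, hDθ, hω', hT, ω.ext_algebraMap, _root_.map_mul,
        _root_.map_mul, map_natCast]
      rcases Nat.eq_zero_or_pos j with hj | hj
      · subst hj
        simp
      · have h2 : θ ^ j = θ ^ (j - 1) * θ := by
          rw [← pow_succ, Nat.sub_add_cancel hj]
        rw [h2]
        ring
  have hwt := wt_over h h' ho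
  -- the value of the derivative
  have hDv : ∀ b, b ≠ 0 → ∀ n : ℕ, n ≠ 0 → v'.v b = n → D b ≠ 0 ∧ v'.v (D b) = n - e := by
    intro b hb n hn hv
    obtain ⟨h1, h2⟩ := h'.br_val ht' hb hn hv
    refine ⟨div_ne_zero h1 hβ0, ?_⟩
    rw [hD]
    dsimp only
    rw [v'.map_div h1 hβ0, h2, hvβ]
    linarith
  have key : ∀ n : ℕ, ∀ b, S b → b ≠ 0 → v'.v b = n → e ∣ n := by
    intro n
    induction n using Nat.strong_induction_on with
    | _ n ih =>
      intro b hb hb0 hv
      by_contra hcon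
      have hn : n ≠ 0 := by
        rintro rfl
        exact hcon (by simp)
      obtain ⟨h1, h2⟩ := hDv b hb0 n hn hv
      have h3 := hDS b hb
      have h4 := (hSint _ h3).resolve_left h1
      rw [h2] at h4
      obtain ⟨l, hl⟩ : ∃ l : ℕ, (l : ℤ) = n - e := ⟨(n - e : ℤ).toNat, Int.toNat_of_nonneg h4⟩
      have hlt : l < n := by
        have := ho.1
        omega
      have h5 := ih l hlt (D b) h3 h1 (by rw [h2, hl])
      rw [hl] at h5
      exact hcon ((Int.dvd_iff_dvd_of_dvd_sub h5).2 (dvd_refl e) |> fun h => by simpa using h)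
  -- an element of `S` of value congruent to one
  obtain ⟨b, hb0, hbv⟩ := v'.exists_unif
  obtain ⟨s, hs⟩ : ∃ s : ℕ, ∀ i < m, -(s : ℤ) ≤ v'.v (κ.σi i b) := by
    have : ∀ n : ℕ, ∃ s : ℕ, ∀ i < n, -(s : ℤ) ≤ v'.v (κ.σi i b) := by
      intro n
      induction n with
      | zero => exact ⟨0, fun i hi => absurd hi (by omega)⟩
      | succ n ih =>
        obtain ⟨s, hs⟩ := ih
        refine ⟨max s (v'.v (κ.σi n b)).natAbs, fun i hi => ?_⟩
        rcases Nat.lt_succ_iff_lt_or_eq.1 hi with h1 | h1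
        · have := hs i h1
          have h2 : (s : ℤ) ≤ (max s (v'.v (κ.σi n b)).natAbs : ℕ) := by exact_mod_cast le_max_left _ _
          linarith
        · subst h1
          have h2 : ((v'.v (κ.σi i b)).natAbs : ℤ) ≤ (max s (v'.v (κ.σi i b)).natAbs : ℕ) := by
            exact_mod_cast le_max_right _ _
          have h3 : -((v'.v (κ.σi i b)).natAbs : ℤ) ≤ v'.v (κ.σi i b) := by omega
          linarith
    exact this m
  set b1 : L' := algebraMap L L' (π ^ s) * b with hb1
  have hπs : π ^ s ≠ 0 := pow_ne_zero _ hπ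
  have hb10 : b1 ≠ 0 := mul_ne_zero (hA hπs) hb0
  have hvπs : v'.v (algebraMap L L' (π ^ s)) = e * s := by
    rw [ho.2 _ hπs, v.map_pow hπ, hvπ, mul_one]
  obtain ⟨a, ha⟩ := κ.exists_el b1
  have hcomp : ∀ j < m, v'.Int (algebraMap L L' (a j) * κ.η ^ j) := by
    intro j hj
    have h1 := κ.component a j hj
    have h2 : algebraMap L L' (a j) * κ.η ^ j = algebraMap ℂ L' ((m : ℂ)⁻¹) *
        (algebraMap ℂ L' m * (algebraMap L L' (a j) * κ.η ^ j)) := by
      rw [← mul_assoc, ← _root_.map_mul, inv_mul_cancel₀ (by exact_mod_cast hm0), _root_.map_one,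
        one_mul]
    rw [h2, h1]
    refine v'.int_mul (v'.int_const _) (v'.int_sum _ _ fun i hi => v'.int_mul (v'.int_const _) ?_)
    rw [← ha, hb1, _root_.map_mul, (κ.σi i).commutes]
    have h3 : κ.σi i b ≠ 0 := by
      rw [Ne, map_eq_zero]; exact hb0
    right
    rw [v'.map_mul _ _ (hA hπs) h3, hvπs]
    have h4 := hs i (Finset.mem_range.1 hi)
    have h5 : (s : ℤ) ≤ e * s := by
      have := ho.1
      nlinarith [Int.natCast_nonneg s]
    linarith
  have hconv : ∀ j, algebraMap L L' (a j) * κ.η ^ j =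
      algebraMap L L' (a j * (c⁻¹) ^ j) * θ ^ j := by
    intro j
    have h0 : (c⁻¹ ^ j) * c ^ j = 1 := by rw [← mul_pow, inv_mul_cancel₀ hc0, one_pow]
    have h1 : algebraMap L L' (c⁻¹ ^ j) * algebraMap L L' c ^ j = 1 := by
      rw [← _root_.map_pow, ← _root_.map_mul, h0, _root_.map_one]
    rw [hθ, mul_pow, _root_.map_mul]
    linear_combination (-(algebraMap L L' (a j) * κ.η ^ j)) * h1
  have hS1 : S b1 := by
    refine ⟨fun j => a j * (c⁻¹) ^ j, ?_, ?_⟩
    · intro j hj
      by_cases h0 : a j = 0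
      · left; simp [h0]
      · have h1 := hcomp j hj
        rw [hconv] at h1
        have h3 : a j * (c⁻¹) ^ j ≠ 0 := mul_ne_zero h0 (pow_ne_zero _ (inv_ne_zero hc0))
        rcases h1 with h1 | h1
        · exact absurd h1 (mul_ne_zero (hA h3) (pow_ne_zero _ hθ0))
        · right
          rw [v'.map_mul _ _ (hA h3) (pow_ne_zero _ hθ0), v'.map_pow hθ0, hvθ, mul_zero, add_zero,
            ho.2 _ h3] at h1
          exact nonneg_of_mul_nonneg_right h1 ho.1
    · rw [ha, Kum.el]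
      exact Finset.sum_congr rfl fun j _ => hconv j
  have hval : v'.v b1 = e * s + 1 := by
    rw [hb1, v'.map_mul _ _ (hA hπs) hb0, hvπs, hbv]
  obtain ⟨n, hn⟩ : ∃ n : ℕ, (n : ℤ) = e * s + 1 :=
    ⟨(e * s + 1).toNat, Int.toNat_of_nonneg (by
      have := mul_nonneg ho.1.le (Int.natCast_nonneg s)
      omega)⟩
  have h1 := key n b1 hS1 hb10 (by rw [hval, hn])
  rw [hn] at h1
  have h2 : e ∣ 1 := by
    have := dvd_sub h1 (dvd_mul_right e (s : ℤ))
    simpa using this
  exact le_antisymm (Int.le_of_dvd one_pos h2) ho.1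

end

end LCY
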