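import Pool.Agent.Helper99.LCY.Extn
import Pool.Agent.Helper51.LCY.P4

/-!
The degree of a linear system (block COV of MP_f7e214_ag).
-/

open Polynomial

set_option linter.unusedSectionVars false

namespace LCY

noncomputable section

variable {L : Type} [Field L] [Algebra ℂ L] {N : ℕ}

/-- The field `L` has degree at least `n` over the field generated by two quotients of the
system `x` (and these quotients are algebraically independent if `n` is positive). -/
def Dl (x : Fin (N + 1) → L) (n : ℕ) : Prop :=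
  ∃ i j l, x l ≠ 0 ∧ ∃ (ι : Type) (_ : Fintype ι) (θ : ι → L), Fintype.card ι = n ∧
    ∀ p : ι → ℂ[X][X], ∑ s, ev (x i / x l) (x j / x l) (p s) * θ s = 0 → ∀ s, p s = 0

theorem ev_algebraMap {L' : Type} [Field L'] [Algebra ℂ L'] [Algebra L L'] [IsScalarTower ℂ L L']
    (x y : L) (f : ℂ[X][X]) :
    ev (algebraMap L L' x) (algebraMap L L' y) f = algebraMap L L' (ev x y f) := by
  rw [ev_eq_sum, ev_eq_sum, map_sum]
  refine Finset.sum_congr rfl fun e _ => ?_
  rw [map_mul, map_mul, map_pow, map_pow, ← IsScalarTower.algebraMap_apply]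

/-- The degree is multiplied by `m` in a Kummer extension. -/
theorem Dl.kum {L' : Type} [Field L'] [Algebra ℂ L'] [Algebra L L'] [IsScalarTower ℂ L L']
    {m : ℕ} {g : L} (κ : Kum L L' m g) {x : Fin (N + 1) → L} {n : ℕ} (h : Dl x n) :
    Dl (fun i => algebraMap L L' (x i)) (n * m) := by
  classical
  obtain ⟨i, j, l, hl, ι, hι, θ, hcard, hind⟩ := h
  refine ⟨i, j, l, by simpa using hl, ι × Fin m, inferInstance,
    fun s => algebraMap L L' (θ s.1) * κ.η ^ (s.2 : ℕ), ?_, ?_⟩
  · rw [Fintype.card_prod, Fintype.card_fin, hcard]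
  · intro p hp
    set a : ℕ → L := fun r => if hr : r < m then
      ∑ s, ev (x i / x l) (x j / x l) (p (s, ⟨r, hr⟩)) * θ s else 0 with ha
    have h1 : κ.el a = 0 := by
      rw [← hp, Fintype.sum_prod_type, Finset.sum_comm, Kum.el, ← Fin.sum_univ_eq_sum_range
        (fun r => algebraMap L L' (a r) * κ.η ^ r)]
      refine Finset.sum_congr rfl fun r _ => ?_
      rw [ha]
      dsimp only
      rw [dif_pos r.2, map_sum, Finset.sum_mul]
      refine Finset.sum_congr rfl fun s _ => ?_
      rw [← map_div₀, ← map_div₀, ev_algebraMap, map_mul, Fin.eta]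
      ring
    have h2 := κ.el_eq_zero h1
    rintro ⟨s, r⟩
    have h3 := h2 r r.2
    rw [ha] at h3
    dsimp only at h3
    rw [dif_pos r.2] at h3
    exact hind (fun s => p (s, r)) h3 s

/-- The total degree is at most `d`. -/
def TD (f : ℂ[X][X]) (d : ℕ) : Prop := ∀ e, cf f e ≠ 0 → e.1 + e.2 ≤ d

theorem TD.mono {f : ℂ[X][X]} {d d' : ℕ} (h : TD f d) (hd : d ≤ d') : TD f d' :=
  fun e he => (h e he).trans hd

theorem TD.mul {f g : ℂ[X][X]} {d d' : ℕ} (hf : TD f d) (hg : TD g d') : TD (f * g) (d + d') := by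
  intro e he
  unfold cf at he
  rw [coeff_mul, finsetSum_coeff] at he
  obtain ⟨⟨b1, b2⟩, hb, h1⟩ := Finset.exists_ne_zero_of_sum_ne_zero he
  rw [coeff_mul] at h1
  obtain ⟨⟨a1, a2⟩, ha, h2⟩ := Finset.exists_ne_zero_of_sum_ne_zero h1
  rw [Finset.HasAntidiagonal.mem_antidiagonal] at ha hb
  have h3 := hf (a1, b1) (left_ne_zero_of_mul h2)
  have h4 := hg (a2, b2) (right_ne_zero_of_mul h2)
  dsimp only at h3 h4 ha hb
  omega

theorem TD.one : TD 1 0 := by
  intro e he
  unfold cf at he
  rw [coeff_one] at he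
  split_ifs at he with h1
  · rw [coeff_one] at he
    split_ifs at he with h2
    · omega
    · exact absurd rfl he
  · simp at he

theorem TD.pow {f : ℂ[X][X]} {d : ℕ} (hf : TD f d) (n : ℕ) : TD (f ^ n) (n * d) := by
  induction n with
  | zero => rw [pow_zero, zero_mul]; exact TD.one
  | succ n ih => rw [pow_succ, add_mul, one_mul]; exact ih.mul hf

theorem exists_TD (f : ℂ[X][X]) : ∃ d, TD f d := by
  refine ⟨(bs f).sup fun e => e.1 + e.2, fun e he => ?_⟩
  exact Finset.le_sup (f := fun e : ℕ × ℕ => e.1 + e.2) (mem_bs.2 he)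

/-- Exponents of total degree at most `M`. -/
def tri (M : ℕ) : Finset (ℕ × ℕ) := (Finset.range (M + 1)).biUnion Finset.HasAntidiagonal.antidiagonal

theorem mem_tri {M : ℕ} {e : ℕ × ℕ} : e ∈ tri M ↔ e.1 + e.2 ≤ M := by
  unfold tri
  rw [Finset.mem_biUnion]
  constructor
  · rintro ⟨n, hn, he⟩
    rw [Finset.HasAntidiagonal.mem_antidiagonal] at he
    rw [Finset.mem_range] at hn
    omega
  · intro h
    exact ⟨e.1 + e.2, Finset.mem_range.2 (by omega), Finset.HasAntidiagonal.mem_antidiagonal.2 rfl⟩

theorem card_tri (M : ℕ) : 2 * (tri M).card = (M + 1) * (M + 2) := by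
  unfold tri
  rw [Finset.card_biUnion]
  · induction M with
    | zero => simp
    | succ M ih =>
      rw [Finset.sum_range_succ, mul_add, ih, Finset.Nat.card_antidiagonal]
      ring
  · intro a _ b _ hab
    change Disjoint (Finset.HasAntidiagonal.antidiagonal a) (Finset.HasAntidiagonal.antidiagonal b)
    rw [Finset.disjoint_left]
    intro e h1 h2
    rw [Finset.HasAntidiagonal.mem_antidiagonal] at h1 h2
    omega

theorem cf_add (f g : ℂ[X][X]) (e : ℕ × ℕ) : cf (f + g) e = cf f e + cf g e := by
  unfold cf; rw [coeff_add, coeff_add]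

theorem cf_Cmul (c : ℂ) (f : ℂ[X][X]) (e : ℕ × ℕ) : cf (C (C c) * f) e = c * cf f e := by
  unfold cf; rw [coeff_C_mul, coeff_C_mul]

theorem cf_sum {κ : Type} (s : Finset κ) (f : κ → ℂ[X][X]) (e : ℕ × ℕ) :
    cf (∑ k ∈ s, f k) e = ∑ k ∈ s, cf (f k) e := by
  unfold cf; rw [finsetSum_coeff, finsetSum_coeff]

/-- Common denominators. -/
theorem exists_common (P : Coord L) {ι : Type} [Fintype ι] (θ : ι → L) :
    ∃ (D : L) (h : ι → ℂ[X][X]), D ≠ 0 ∧ ∀ s, ev P.x P.y (h s) = D * θ s := by
  classical
  choose f g hg hθ using fun s => P.surj (θ s)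
  refine ⟨∏ s, ev P.x P.y (g s), fun s => f s * ∏ t ∈ Finset.univ.erase s, g t,
    Finset.prod_ne_zero_iff.2 fun s _ => P.ne (hg s), fun s => ?_⟩
  rw [map_mul, map_prod, ← Finset.mul_prod_erase Finset.univ _ (Finset.mem_univ s), hθ s]
  have := P.ne (hg s)
  field_simp

/-- The degree of a system of plane curves of degree `a` is at most `a ^ 2`. -/
theorem Dl.le_sq {x : Fin (N + 1) → L} {n : ℕ} (h : Dl x n) {P : Coord L} {q : L} {a : ℕ}
    (hP : P2S x P q a) : n ≤ a ^ 2 := by
  classical
  obtain ⟨i, j, l, hl, ι, hι, θ, hcard, hind⟩ := h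
  obtain ⟨F, ⟨hq, hF⟩, hS⟩ := hP
  obtain ⟨D, h, hD, hh⟩ := exists_common P θ
  obtain ⟨b, hb⟩ : ∃ b, ∀ s, TD (h s) b := by
    choose d hd using fun s => exists_TD (h s)
    exact ⟨Finset.univ.sup d, fun s => (hd s).mono (Finset.le_sup (Finset.mem_univ s))⟩
  have key : ∀ M : ℕ, n * (tri M).card ≤ (tri (M * a + b)).card := by
    intro M
    set G : ι × tri M → ℂ[X][X] := fun s =>
      (F i ^ s.2.1.1 * F j ^ s.2.1.2 * F l ^ (M - (s.2.1.1 + s.2.1.2))) * h s.1 with hG
    have hTD : ∀ s, TD (G s) (M * a + b) := by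
      rintro ⟨s, ⟨e, he⟩⟩
      have he' := mem_tri.1 he
      refine (((((show TD (F i) a from hS i).pow e.1).mul
        ((show TD (F j) a from hS j).pow e.2)).mul
        ((show TD (F l) a from hS l).pow (M - (e.1 + e.2)))).mul (hb s)).mono ?_
      have : e.1 * a + e.2 * a + (M - (e.1 + e.2)) * a = M * a := by
        rw [← add_mul, ← add_mul]
        congr 1
        omega
      omega
    let Φ : (ι × tri M → ℂ) →ₗ[ℂ] (tri (M * a + b) → ℂ) :=
      { toFun := fun c e => ∑ s, c s * cf (G s) e.1
        map_add' := by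
          intro c c'
          funext e
          simp only [Pi.add_apply, add_mul, Finset.sum_add_distrib]
        map_smul' := by
          intro r c
          funext e
          simp only [Pi.smul_apply, smul_eq_mul, RingHom.id_apply, Finset.mul_sum, mul_assoc] }
    have hinj : Function.Injective Φ := by
      rw [← LinearMap.ker_eq_bot, LinearMap.ker_eq_bot']
      intro c hc
      -- the polynomial vanishes
      have h1 : ∑ s, C (C (c s)) * G s = 0 := by
        apply cf_eq_zero
        intro e
        rw [cf_sum]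
        simp only [cf_Cmul]
        by_cases he : e ∈ tri (M * a + b)
        · exact congrFun hc ⟨e, he⟩
        · refine Finset.sum_eq_zero fun s _ => ?_
          by_cases h0 : cf (G s) e = 0
          · rw [h0, mul_zero]
          · exact absurd (mem_tri.2 (hTD s e h0)) he
      set p : ι → ℂ[X][X] := fun s => ∑ e : tri M, C (C (c (s, e))) * (C X ^ e.1.1 * X ^ e.1.2)
        with hp
      have h2 : ∑ s, ev (x i / x l) (x j / x l) (p s) * θ s = 0 := by
        have h3 : (q * x l) ^ M * D * ∑ s, ev (x i / x l) (x j / x l) (p s) * θ s =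
            ev P.x P.y (∑ s, C (C (c s)) * G s) := by
          rw [map_sum, Fintype.sum_prod_type, Finset.mul_sum]
          refine Finset.sum_congr rfl fun s _ => ?_
          rw [hp]
          dsimp only
          rw [map_sum, Finset.sum_mul, Finset.mul_sum]
          refine Finset.sum_congr rfl fun e _ => ?_
          rw [hG]
          dsimp only
          simp only [map_mul, map_pow, ev_CC, ev_CX, ev_X, hF, hh]
          have he' := mem_tri.1 e.2
          have h4 : (q * x l) ^ M = (q * x l) ^ e.1.1 * (q * x l) ^ e.1.2 *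
              (q * x l) ^ (M - (e.1.1 + e.1.2)) := by
            rw [← pow_add, ← pow_add]
            congr 1
            omega
          rw [h4]
          have hql : q * x l ≠ 0 := mul_ne_zero hq hl
          have h5 : ∀ (z : L) (r : ℕ), (q * x l) ^ r * (z / x l) ^ r = (q * z) ^ r := by
            intro z r
            rw [← mul_pow]
            congr 1
            field_simp
          rw [← h5 (x i) e.1.1, ← h5 (x j) e.1.2]
          ring
        rw [h1, map_zero] at h3
        exact (mul_eq_zero.1 h3).resolve_left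
          (mul_ne_zero (pow_ne_zero _ (mul_ne_zero hq hl)) hD)
      have h6 := hind p h2
      funext s
      obtain ⟨s, e⟩ := s
      have h7 := congrArg (fun f => cf f e.1) (h6 s)
      rw [hp] at h7
      dsimp only at h7
      rw [cf_sum] at h7
      simp only [cf_Cmul] at h7
      have h8 : ∀ e' : tri M, cf (C X ^ e'.1.1 * X ^ e'.1.2) e.1 = if e' = e then 1 else 0 := by
        intro e'
        unfold cf
        rw [← C_pow, coeff_C_mul, coeff_X_pow]
        by_cases h9 : e' = e
        · subst h9
          simp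
        · rw [if_neg h9]
          split_ifs with h10
          · rw [mul_one, coeff_X_pow, if_neg]
            intro h11
            exact h9 (Subtype.ext (Prod.ext h11.symm h10.symm))
          · simp
      simp only [h8, mul_ite, mul_one, mul_zero, Finset.sum_ite_eq', Finset.mem_univ, if_true] at h7
      rw [h7]
      simp [cf]
    have h12 := LinearMap.finrank_le_finrank_of_injective hinj
    rw [Module.finrank_fintype_fun_eq_card, Module.finrank_fintype_fun_eq_card,
      Fintype.card_prod, hcard, Fintype.card_coe, Fintype.card_coe] at h12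
    exact h12
  by_contra hcon
  push Not at hcon
  have hM : ∀ M : ℕ, (a ^ 2 + 1) * ((M + 1) * (M + 2)) ≤ (M * a + b + 1) * (M * a + b + 2) := by
    intro M
    rw [← card_tri, ← card_tri]
    have := key M
    have h1 : (a ^ 2 + 1) * (tri M).card ≤ n * (tri M).card := Nat.mul_le_mul_right _ hcon
    nlinarith
  have h1 := hM (a * (2 * b + 3) + (b + 1) * (b + 2) + 1)
  obtain ⟨M, hMdef⟩ : ∃ M, M = a * (2 * b + 3) + (b + 1) * (b + 2) + 1 := ⟨_, rfl⟩
  rw [← hMdef] at h1
  have hM1 : 1 ≤ M := by omega
  have h3 : (b + 1) * (b + 2) ≤ M * ((b + 1) * (b + 2)) := Nat.le_mul_of_pos_left _ hM1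
  have h2 : M * M = M * (a * (2 * b + 3)) + M * ((b + 1) * (b + 2)) + M := by
    calc M * M = M * (a * (2 * b + 3) + (b + 1) * (b + 2) + 1) := by rw [← hMdef]
      _ = _ := by ring
  have h4 : 0 ≤ a ^ 2 * M := Nat.zero_le _
  have h5 : 0 ≤ a ^ 2 := Nat.zero_le _
  nlinarith

end

end LCY
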