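import Pool.Agent.Helper48.LCY.Asm
import Pool.Agent.Helper11.LCY.Stmts
import Pool.Agent.Helper99.LCY.Deg

/-!
Statements of the rows of the block COVERS for MP_f7e214_ag.
-/

open Polynomial Pool.Agent.Helper82.LCY

namespace LCY

noncomputable section

/-- The ratio `l : r` is possible for the system: there is a function `h` with
`r * min(x) ≤ l * wt + v(h)` at all places that are not contracted or poles of the 2-form. -/
def MM {L : Type} [Field L] [Algebra ℂ L] {N : ℕ} (ω : Bracket L) (x : Fin (N + 1) → L)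
    (l r : ℤ) : Prop :=
  ∃ h : L, h ≠ 0 ∧ ∀ (v : DVal L) (k μ : ℤ), (¬ Contracted x v ∨ k = -1) → ω.Wt v k →
    IsMin x v μ → r * μ ≤ l * k + v.v h

/-- M3 (helper36). The bound for the ratio. -/
def ST_M3 : Prop := ∀ (L : Type) [Field L] [Algebra ℂ L] (N : ℕ) (ω : Bracket L)
  (x : Fin (N + 1) → L), Adm ω x → ∀ (k : ℕ) (T : PStr L k), State ω x T →
  ∀ (a : ℕ) (h : L), h ≠ 0 →
    (∀ v, T.Cur v → ∀ n m, ω.Wt v n → IsMin x v m → a * n + v.v h = 3 * m) →
  ∀ l r : ℤ, MM ω x l r → 3 * l ≤ r * a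

/-- COVNUM (helper89). If the contracted curves outside the boundary span `K ^ ⊥` over the
rational numbers but not over the integers, there are a prime `m`, a class `τ` with `m τ` a
combination of a nonempty set `E` of contracted curves, with coefficients that are not divisible
by `m`, and a structure on the same surface such that the pencil of lines through the first point
meets only two curves of `E`, and these only once. -/
def ST_COVNUM : Prop := ∀ (L : Type) [Field L] [Algebra ℂ L] (N : ℕ) (ω : Bracket L)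
  (x : Fin (N + 1) → L), Adm ω x → ∀ (k : ℕ) (T : PStr L k), 3 ≤ k → State ω x T →
  Full ω x T → ¬ ZSpan ω x T →
  ∃ (m : ℕ) (E : Finset (DVal L)) (c : DVal L → ℤ) (τ : Cl ℤ (Fin k)) (T' : PStr L k)
    (v₁ v₂ : DVal L), m.Prime ∧ E.Nonempty ∧
    (∀ v ∈ E, v.v 0 = 0 ∧ v ∈ CSet ω x T ∧ ¬ (m : ℤ) ∣ c v) ∧
    (m : ℤ) • τ = ∑ v ∈ E, c v • T.cl v ∧ T'.X = T.X ∧
    ∀ v ∈ E, ip (ff k 1) (T'.cl v) = 0 ∨ (ip (ff k 1) (T'.cl v) = 1 ∧ (v = v₁ ∨ v = v₂))

/-- COVDIV (helper89). A function whose divisor is `m D` outside the contracted curves of weight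
`0` has value divisible by `m` at all places that are not contracted or poles of the 2-form. -/
def ST_COVDIV : Prop := ∀ (L : Type) [Field L] [Algebra ℂ L] (N : ℕ) (ω : Bracket L)
  (x : Fin (N + 1) → L), Adm ω x → ∀ (k : ℕ) (T : PStr L k), State ω x T →
  ∀ (m : ℕ) (D : DVal L → ℤ) (g : L), g ≠ 0 → T.IsDiv D →
  (∀ v ∈ T.C, v ∉ CSet ω x T → v.v g = m * D v) →
  ∀ (v : DVal L) (n : ℤ), ω.Wt v n → (¬ Contracted x v ∨ n = -1) → (m : ℤ) ∣ v.v g

end

end LCY
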