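import Pool.Agent.Helper99.LCY.Cov1

/-!
The induction over covers (block COV of MP_f7e214_ag).
-/

open Polynomial Pool.Agent.Helper82.LCY

namespace LCY

noncomputable section

/-- The function whose root defines the cover. -/
def ST_COVG : Prop := ∀ (L : Type) [Field L] [Algebra ℂ L] (N : ℕ) (ω : Bracket L)
  (x : Fin (N + 1) → L), Adm ω x → ∀ (k : ℕ) (T : PStr L k), 3 ≤ k → State ω x T →
  Full ω x T → ¬ ZSpan ω x T →
  ∃ (m : ℕ) (g : L), m.Prime ∧ g ≠ 0 ∧ (∀ b : L, b ^ m ≠ g) ∧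
    (∀ (v : DVal L) (k : ℤ), ω.Wt v k → (¬ Contracted x v ∨ k = -1) → (m : ℤ) ∣ v.v g) ∧
    ∀ (L' : Type) [Field L'] [Algebra ℂ L'] [Algebra L L'] [IsScalarTower ℂ L L']
      [FiniteDimensional L L'], Kum L L' m g →
      ∃ (E : IntermediateField ℂ L') (t : L'), IsRuling E t

/-- The induction over covers. -/
theorem cov_of (hG : ST_COVG) (hM3 : ST_M3) : ST_COV := by
  intro H
  have key : ∀ (n : ℕ) (L : Type) [Field L] [Algebra ℂ L] (N : ℕ) (ω : Bracket L)
      (x : Fin (N + 1) → L), Adm ω x → (∃ (E : IntermediateField ℂ L) (t : L), IsRuling E t) →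
      ∀ a d : ℕ, (∀ l r : ℤ, MM ω x l r → 3 * l ≤ r * a) → Dl x d → a ^ 2 < d * 2 ^ n →
      Fam ω x := by
    intro n
    induction n with
    | zero =>
      intro L _ _ N ω x hA hr a d hB hd hlt
      rcases H L N ω x hA hr with hF | ⟨k, T, hk, hS, hFull, hZ⟩
      · exact hF
      exfalso
      obtain ⟨a', h, ha', hh, -, hall, P, q, hP⟩ := hS.sys
      have h1 : 3 * (a' : ℤ) ≤ 3 * a := hB a' 3 ⟨h, hh, fun v n m _ hn hm => hall v n m hn hm⟩
      have h2 : a' ≤ a := by omega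
      have h3 := hd.le_sq hP
      have h4 : a' ^ 2 ≤ a ^ 2 := Nat.pow_le_pow_left h2 2
      rw [pow_zero, mul_one] at hlt
      omega
    | succ n ih =>
      intro L _ _ N ω x hA hr a d hB hd hlt
      rcases H L N ω x hA hr with hF | ⟨k, T, hk, hS, hFull, hZ⟩
      · exact hF
      obtain ⟨m, g, hm, hg, hgm, hgv, hrul⟩ := hG L N ω x hA k T hk hS hFull hZ
      obtain ⟨L', i1, i2, i3, i4, i5, ⟨κ⟩⟩ := exists_kum L m hm g hgm
      have hgv' : ∀ v : DVal L, ¬ Contracted x v → (m : ℤ) ∣ v.v g := by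
        intro v hv
        obtain ⟨k, hk⟩ := br8s L hA.fg hA.trdeg ω v
        exact hgv v k hk.wt (Or.inl hv)
      have hA' := κ.adm br8s hg hA hgv'
      have hm0 : (0 : ℤ) < m := by exact_mod_cast hm.pos
      have hB' : ∀ l r : ℤ, MM (ω.ext L') (fun i => algebraMap L L' (x i)) l r →
          3 * l ≤ r * a := by
        intro l r h
        have h1 := hB _ _ (κ.mm hg hA hgv h)
        have h2 : (m : ℤ) * (3 * l) ≤ m * (r * a) := by linarith
        exact le_of_mul_le_mul_left h2 hm0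
      have hlt' : a ^ 2 < (d * m) * 2 ^ n := by
        have h1 : d * 2 * 2 ^ n ≤ d * m * 2 ^ n :=
          Nat.mul_le_mul_right _ (Nat.mul_le_mul_left _ hm.two_le)
        have h2 : d * 2 ^ (n + 1) = d * 2 * 2 ^ n := by ring
        omega
      exact fam_of_ext br8s hA (κ.fg hA.fg)
        (ih L' N (ω.ext L') _ hA' (hrul L' κ) a (d * m) hB' (hd.kum κ) hlt')
  intro L _ _ N ω x hA hr
  rcases H L N ω x hA hr with hF | ⟨k, T, hk, hS, hFull, hZ⟩
  · exact hF
  obtain ⟨a, h, ha, hh, hcur, hall, P, q, hP⟩ := hS.sys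
  have hB := hM3 L N ω x hA k T hS a h hh hcur
  exact key (a ^ 2) L N ω x hA hr a 1 hB hA.dl_one (by rw [one_mul]; exact Nat.lt_two_pow_self)

end

end LCY
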