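import Pool.Agent.Helper99.LCY.Ext

/-!
Restriction of divisorial valuations to a subfield over which the field is algebraic
(block COV of MP_f7e214_ag).
-/

open Polynomial

namespace LCY

noncomputable section

namespace DVal

section one

variable {L : Type} [Field L] [Algebra ℂ L] (v : DVal L)

theorem ne_const_of_resTr {t : L} (ht : ResTr v.v t) (c : ℂ) : t ≠ algebraMap ℂ L c := by
  intro h
  have := (ht (X - C c) (X_sub_C_ne_zero c)).1
  apply this
  simp [h]

theorem resTr_sub {t : L} (ht : ResTr v.v t) (c : ℂ) : v.v (t - algebraMap ℂ L c) = 0 := by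
  have := (ht (X - C c) (X_sub_C_ne_zero c)).2
  simpa using this

theorem resTr_ne {t : L} (ht : ResTr v.v t) : t ≠ 0 := by
  have := ne_const_of_resTr v ht 0
  simpa using this

theorem resTr_val {t : L} (ht : ResTr v.v t) : v.v t = 0 := by
  have := resTr_sub v ht 0
  simpa using this

/-- An element all of whose translates are units is residually transcendental. -/
theorem resTr_of_sub {t : L} (h : ∀ c : ℂ, t - algebraMap ℂ L c ≠ 0 ∧
    v.v (t - algebraMap ℂ L c) = 0) : ResTr v.v t := by
  have key : ∀ (n : ℕ) (P : ℂ[X]), P.natDegree ≤ n → P ≠ 0 →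
      aeval t P ≠ 0 ∧ v.v (aeval t P) = 0 := by
    intro n
    induction n with
    | zero =>
      intro P hP hne
      rw [eq_C_of_natDegree_eq_zero (Nat.le_zero.1 hP), aeval_C]
      have hc : P.coeff 0 ≠ 0 := by
        intro h0
        apply hne
        rw [eq_C_of_natDegree_eq_zero (Nat.le_zero.1 hP), h0, C_0]
      exact ⟨by simpa using hc, v.map_const _ hc⟩
    | succ n ih =>
      intro P hP hne
      by_cases hd : P.natDegree = 0
      · exact ih P (by omega) hne
      obtain ⟨c, hc⟩ := IsAlgClosed.exists_root P (by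
        intro h0
        exact hd (natDegree_eq_of_degree_eq_some h0))
      obtain ⟨Q, rfl⟩ := dvd_iff_isRoot.2 hc
      have hQ : Q ≠ 0 := right_ne_zero_of_mul hne
      have hx : (X - C c : ℂ[X]) ≠ 0 := X_sub_C_ne_zero c
      have hdeg : ((X - C c) * Q).natDegree = 1 + Q.natDegree := by
        rw [natDegree_mul hx hQ, natDegree_X_sub_C]
      have h1 : aeval t (X - C c : ℂ[X]) = t - algebraMap ℂ L c := by
        rw [map_sub, aeval_X, aeval_C]
      obtain ⟨h2, h3⟩ := ih Q (by omega) hQ
      rw [_root_.map_mul, h1]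
      refine ⟨mul_ne_zero (h c).1 h2, ?_⟩
      rw [v.map_mul _ _ (h c).1 h2, (h c).2, h3, add_zero]
  intro P hP
  exact key P.natDegree P le_rfl hP

/-- An integral element is residually transcendental or congruent to a constant. -/
theorem resTr_or {t : L} (ht : v.Int t) :
    ResTr v.v t ∨ ∃ c : ℂ, v.Pos (t - algebraMap ℂ L c) := by
  by_cases h : ∃ c : ℂ, v.Pos (t - algebraMap ℂ L c)
  · exact Or.inr h
  left
  push Not at h
  refine resTr_of_sub v fun c => ?_
  have h1 := h c
  have h2 := v.int_sub ht (v.int_const c)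
  unfold DVal.Pos at h1
  unfold DVal.Int at h2
  push Not at h1
  refine ⟨h1.1, ?_⟩
  rcases h2 with h2 | h2
  · exact absurd h2 h1.1
  · exact le_antisymm h1.2 h2

theorem pos_sum {ι : Type} (s : Finset ι) (f : ι → L) (h : ∀ i ∈ s, v.Pos (f i)) :
    v.Pos (∑ i ∈ s, f i) := by
  classical
  induction s using Finset.induction_on with
  | empty => rw [Finset.sum_empty]; exact Or.inl rfl
  | insert a s ha ih =>
    rw [Finset.sum_insert ha]
    exact v.pos_add (h a (Finset.mem_insert_self a s))
      (ih fun i hi => h i (Finset.mem_insert_of_mem hi))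

end one

variable {L : Type} [Field L] [Algebra ℂ L] {L' : Type} [Field L'] [Algebra ℂ L'] [Algebra L L']
  [IsScalarTower ℂ L L'] [Algebra.IsAlgebraic L L']

/-- The elements of `L` have unbounded values. -/
theorem exists_ne_val (v' : DVal L') : ∃ a : L, a ≠ 0 ∧ v'.v (algebraMap L L' a) ≠ 0 := by
  by_contra hcon
  push Not at hcon
  obtain ⟨π, hπ0, hπ⟩ := v'.exists_unif
  have halg : IsAlgebraic L π := Algebra.IsAlgebraic.isAlgebraic π
  have hint := halg.isIntegral
  set p := minpoly L π with hp
  have h0 : p.coeff 0 ≠ 0 := minpoly.coeff_zero_ne_zero hint hπ0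
  have hroot : aeval π p = 0 := minpoly.aeval L π
  have hsplit : aeval π p = algebraMap L L' (p.coeff 0) + π * aeval π p.divX := by
    conv_lhs => rw [← divX_mul_X_add p]
    rw [_root_.map_add, _root_.map_mul, aeval_X, aeval_C]; ring
  have hI : ∀ q : L[X], v'.Int (aeval π q) := by
    intro q
    rw [aeval_eq_sum_range]
    refine v'.int_sum _ _ fun i _ => ?_
    rw [Algebra.smul_def]
    refine v'.int_mul ?_ (v'.int_pow (Or.inr (by omega)) i)
    by_cases hq : q.coeff i = 0
    · left; rw [hq, map_zero]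
    · right; rw [hcon _ hq]
  have hP : v'.Pos (π * aeval π p.divX) := v'.pos_mul_int (Or.inr (by omega)) (hI _)
  have h1 := v'.val_add_pos (a := algebraMap L L' (p.coeff 0)) (by simpa using h0)
    (hcon _ h0) hP
  exact h1.1 (by rw [← hsplit, hroot])

/-- The subgroup of values on `L`. -/
def valGrp (v' : DVal L') : AddSubgroup ℤ where
  carrier := {n | ∃ a : L, a ≠ 0 ∧ v'.v (algebraMap L L' a) = n}
  zero_mem' := ⟨1, one_ne_zero, by rw [_root_.map_one, v'.map_one]⟩
  add_mem' := by
    rintro m n ⟨a, ha, h1⟩ ⟨b, hb, h2⟩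
    refine ⟨a * b, mul_ne_zero ha hb, ?_⟩
    rw [_root_.map_mul, v'.map_mul _ _ (by simpa using ha) (by simpa using hb), h1, h2]
  neg_mem' := by
    rintro m ⟨a, ha, h1⟩
    refine ⟨a⁻¹, inv_ne_zero ha, ?_⟩
    rw [map_inv₀, v'.map_inv (by simpa using ha), h1]

/-- Residually transcendental elements exist in `L`. -/
theorem exists_resTr_sub (v' : DVal L') : ∃ t : L, ResTr v'.v (algebraMap L L' t) := by
  obtain ⟨s, hs⟩ := v'.exists_res
  by_contra hcon
  push Not at hcon
  have halg : IsAlgebraic L s := Algebra.IsAlgebraic.isAlgebraic s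
  have hint := halg.isIntegral
  set p := minpoly L s with hp
  have hp0 : p ≠ 0 := minpoly.ne_zero hint
  have hroot : aeval s p = 0 := minpoly.aeval L s
  -- a coefficient of least value
  obtain ⟨k, hk, hmin⟩ := Finset.exists_min_image p.support
    (fun i => v'.v (algebraMap L L' (p.coeff i))) (by
      rw [Finset.nonempty_iff_ne_empty, Ne, support_eq_empty]; exact hp0)
  have hk0 : p.coeff k ≠ 0 := mem_support_iff.1 hk
  have hk0' : algebraMap L L' (p.coeff k) ≠ 0 := by simpa using hk0
  have hI : ∀ i, v'.Int (algebraMap L L' (p.coeff i / p.coeff k)) := by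
    intro i
    by_cases hi : p.coeff i = 0
    · left; rw [hi, zero_div, map_zero]
    · right
      rw [map_div₀, v'.map_div (by simpa using hi) hk0']
      have := hmin i (mem_support_iff.2 hi)
      omega
  have hc : ∀ i, ∃ c : ℂ, v'.Pos (algebraMap L L' (p.coeff i / p.coeff k) - algebraMap ℂ L' c) :=
    fun i => (v'.resTr_or (hI i)).resolve_left (hcon _)
  choose c hc using hc
  have hck : c k ≠ 0 := by
    intro h
    have h1 := hc k
    rw [div_self hk0, _root_.map_one, h, map_zero, sub_zero] at h1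
    exact v'.not_pos_one h1
  set P : ℂ[X] := ∑ i ∈ p.support, C (c i) * X ^ i with hP
  have hPk : P.coeff k = c k := by
    rw [hP, finsetSum_coeff]
    simp only [coeff_C_mul, coeff_X_pow]
    rw [Finset.sum_eq_single k]
    · simp
    · intro b _ hb
      rw [if_neg (Ne.symm hb), mul_zero]
    · intro h; exact absurd hk h
  have hP0 : P ≠ 0 := by
    intro h
    rw [h, coeff_zero] at hPk
    exact hck hPk.symm
  have h1 := hs P hP0
  have h2 : ∑ i ∈ p.support, algebraMap L L' (p.coeff i / p.coeff k) * s ^ i = 0 := by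
    have : ∑ i ∈ p.support, algebraMap L L' (p.coeff i / p.coeff k) * s ^ i =
        (algebraMap L L' (p.coeff k))⁻¹ * aeval s p := by
      rw [aeval_eq_sum_range' (lt_add_one _), Finset.mul_sum]
      refine Finset.sum_subset_zero_on_sdiff ?_ ?_ ?_
      · intro i hi
        rw [Finset.mem_range]
        exact Nat.lt_succ_of_le (le_natDegree_of_mem_supp i hi)
      · intro i hi
        have := (Finset.mem_sdiff.1 hi).2
        rw [notMem_support_iff.1 this, zero_smul, mul_zero]
      · intro i _
        rw [map_div₀, Algebra.smul_def]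
        field_simp
    rw [this, hroot, mul_zero]
  have h3 : aeval s P = -∑ i ∈ p.support,
      (algebraMap L L' (p.coeff i / p.coeff k) - algebraMap ℂ L' (c i)) * s ^ i := by
    have : ∑ i ∈ p.support,
        (algebraMap L L' (p.coeff i / p.coeff k) - algebraMap ℂ L' (c i)) * s ^ i =
        ∑ i ∈ p.support, algebraMap L L' (p.coeff i / p.coeff k) * s ^ i - aeval s P := by
      rw [hP, map_sum, ← Finset.sum_sub_distrib]
      refine Finset.sum_congr rfl fun i _ => ?_
      rw [_root_.map_mul, _root_.map_pow, aeval_X, aeval_C]; ring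
    rw [this, h2]; ring
  have h4 : v'.Pos (aeval s P) := by
    rw [h3]
    refine v'.pos_neg (v'.pos_sum _ _ fun i _ => ?_)
    exact v'.pos_mul_int (hc i) (v'.int_pow (Or.inr (by rw [v'.resTr_val hs])) i)
  rcases h4 with h4 | h4
  · exact h1.1 h4
  · omega

/-- `v'` restricts to `e` times `v`. -/
def Over (v' : DVal L') (e : ℤ) (v : DVal L) : Prop :=
  0 < e ∧ ∀ a : L, a ≠ 0 → v'.v (algebraMap L L' a) = e * v.v a

/-- Restriction of a divisorial valuation. -/
theorem exists_restrict (v' : DVal L') : ∃ (e : ℤ) (v : DVal L), Over v' e v := by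
  obtain ⟨e₀, he₀⟩ := Int.subgroup_cyclic (valGrp (L := L) v')
  obtain ⟨a₁, ha₁, hv₁⟩ := exists_ne_val (L := L) v'
  have hmem : ∀ a : L, a ≠ 0 → e₀ ∣ v'.v (algebraMap L L' a) := by
    intro a ha
    have : v'.v (algebraMap L L' a) ∈ valGrp (L := L) v' := ⟨a, ha, rfl⟩
    rw [he₀] at this
    exact (AddSubgroup.mem_closure_singleton.1 this).elim fun k hk => ⟨k, by rw [← hk]; ring⟩
  have he0 : e₀ ≠ 0 := by
    rintro rfl
    exact hv₁ (zero_dvd_iff.1 (hmem a₁ ha₁))
  set e : ℤ := |e₀| with he
  have hepos : 0 < e := abs_pos.2 he0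
  have hmem' : ∀ a : L, a ≠ 0 → e ∣ v'.v (algebraMap L L' a) := fun a ha => by
    rw [he, abs_dvd]; exact hmem a ha
  have hunif : ∃ π : L, π ≠ 0 ∧ v'.v (algebraMap L L' π) = e := by
    have : e ∈ valGrp (L := L) v' := by
      rw [he₀]
      rcases abs_choice e₀ with h | h
      · rw [he, h]; exact AddSubgroup.subset_closure rfl
      · rw [he, h]; exact neg_mem (AddSubgroup.subset_closure rfl)
    exact this
  have hne : ∀ {a : L}, a ≠ 0 → algebraMap L L' a ≠ 0 := fun ha => by simpa using ha
  have hdiv : ∀ a : L, a ≠ 0 → v'.v (algebraMap L L' a) = e * (v'.v (algebraMap L L' a) / e) :=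
    fun a ha => (Int.mul_ediv_cancel' (hmem' a ha)).symm
  refine ⟨e, ⟨fun a => v'.v (algebraMap L L' a) / e, ?_, ?_, ?_, ?_, ?_⟩, hepos, hdiv⟩
  · intro a b ha hb
    rw [_root_.map_mul, v'.map_mul _ _ (hne ha) (hne hb),
      Int.add_ediv_of_dvd_left (hmem' a ha)]
  · intro a b ha hb hab
    have h := v'.map_add _ _ (hne ha) (hne hb) (by rw [← _root_.map_add]; exact hne hab)
    rw [← _root_.map_add] at h
    rcases min_le_iff.1 h with h | h
    · exact min_le_iff.2 (Or.inl (Int.ediv_le_ediv hepos h))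
    · exact min_le_iff.2 (Or.inr (Int.ediv_le_ediv hepos h))
  · intro c hc
    have : algebraMap L L' (algebraMap ℂ L c) = algebraMap ℂ L' c :=
      (IsScalarTower.algebraMap_apply ℂ L L' c).symm
    change v'.v (algebraMap L L' (algebraMap ℂ L c)) / e = 0
    rw [this, v'.map_const c hc, Int.zero_ediv]
  · obtain ⟨π, hπ, hv⟩ := hunif
    exact ⟨π, hπ, by rw [hv, Int.ediv_self hepos.ne']⟩
  · obtain ⟨t, ht⟩ := exists_resTr_sub (L := L) v'
    refine ⟨t, fun P hP => ?_⟩
    obtain ⟨h1, h2⟩ := ht P hP
    rw [aeval_algebraMap_apply] at h1 h2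
    refine ⟨fun h => h1 (by rw [h, map_zero]), ?_⟩
    change v'.v (algebraMap L L' (aeval t P)) / e = 0
    rw [h2, Int.zero_ediv]

end DVal

end

end LCY
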