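import Pool.Agent.Helper99.LCY.Restr

/-!
Kummer extensions of prime degree (block COV of MP_f7e214_ag).
-/

open Polynomial

namespace LCY

noncomputable section

/-- The extension `L'` of `L` is obtained by adjoining an `m`-th root of `g`. -/
structure Kum (L : Type) [Field L] [Algebra ℂ L] (L' : Type) [Field L'] [Algebra ℂ L']
    [Algebra L L'] (m : ℕ) (g : L) where
  /-- the root -/
  η : L'
  /-- a root of unity -/
  ζ : ℂ
  /-- the automorphism -/
  σ : L' →ₐ[L] L'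
  pow : η ^ m = algebraMap L L' g
  prim : IsPrimitiveRoot ζ m
  map : σ η = algebraMap ℂ L' ζ * η
  rep : ∀ b : L', ∃ f : L[X], f.natDegree < m ∧ b = aeval η f
  uniq : ∀ f : L[X], f.natDegree < m → aeval η f = 0 → f = 0

/-- Existence of the Kummer extension. -/
theorem exists_kum (L : Type) [Field L] [Algebra ℂ L] (m : ℕ) (hm : m.Prime) (g : L)
    (hg : ∀ b : L, b ^ m ≠ g) :
    ∃ (L' : Type) (_ : Field L') (_ : Algebra ℂ L') (_ : Algebra L L')
      (_ : IsScalarTower ℂ L L') (_ : FiniteDimensional L L'), Nonempty (Kum L L' m g) := by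
  have hirr : Irreducible (X ^ m - C g : L[X]) := X_pow_sub_C_irreducible_of_prime hm hg
  have : Fact (Irreducible (X ^ m - C g : L[X])) := ⟨hirr⟩
  have hne : (X ^ m - C g : L[X]) ≠ 0 := hirr.ne_zero
  have hdeg : (X ^ m - C g : L[X]).natDegree = m := natDegree_X_pow_sub_C
  let L' := AdjoinRoot (X ^ m - C g : L[X])
  let η : L' := AdjoinRoot.root (X ^ m - C g : L[X])
  have hpow : η ^ m = algebraMap L L' g := by
    have h := AdjoinRoot.eval₂_root (X ^ m - C g : L[X])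
    rw [eval₂_sub, eval₂_C, eval₂_X_pow, sub_eq_zero] at h
    exact h
  obtain ⟨ζ, hζ⟩ : ∃ ζ : ℂ, IsPrimitiveRoot ζ m :=
    ⟨_, Complex.isPrimitiveRoot_exp m hm.ne_zero⟩
  have hζm : (algebraMap ℂ L' ζ * η) ^ m = algebraMap L L' g := by
    rw [mul_pow, ← _root_.map_pow, hζ.pow_eq_one, _root_.map_one, one_mul, hpow]
  let σ : L' →ₐ[L] L' := AdjoinRoot.liftAlgHom _ (Algebra.ofId L L')
    (algebraMap ℂ L' ζ * η) (by
      rw [eval₂_sub, eval₂_C, eval₂_X_pow, hζm]
      exact sub_self _)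
  let pb := AdjoinRoot.powerBasis hne
  have hdim : pb.dim = m := by
    change (AdjoinRoot.powerBasis hne).dim = m
    rw [AdjoinRoot.powerBasis_dim, hdeg]
  have hgen : pb.gen = η := AdjoinRoot.powerBasis_gen hne
  refine ⟨L', inferInstance, inferInstance, inferInstance, inferInstance,
    PowerBasis.finite pb, ⟨⟨η, ζ, σ, hpow, hζ, ?_, ?_, ?_⟩⟩⟩
  · exact AdjoinRoot.liftAlgHom_root _ _ _ _
  · intro b
    obtain ⟨f, hf, hb⟩ := pb.exists_eq_aeval b
    exact ⟨f, hdim ▸ hf, hgen ▸ hb⟩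
  · intro f hf h0
    by_contra hf0
    have h1 : (X ^ m - C g : L[X]) ∣ f := by
      rw [← AdjoinRoot.mk_eq_zero, ← AdjoinRoot.aeval_eq]
      exact h0
    have h2 := natDegree_le_of_dvd h1 hf0
    omega

namespace Kum

variable {L : Type} [Field L] [Algebra ℂ L] {L' : Type} [Field L'] [Algebra ℂ L']
  [Algebra L L'] [IsScalarTower ℂ L L'] {m : ℕ} {g : L} (κ : Kum L L' m g)

include κ in
theorem m_ne : m ≠ 0 := by
  intro h
  obtain ⟨f, hf, -⟩ := κ.rep 0
  omega

theorem η_ne (hg : g ≠ 0) : κ.η ≠ 0 := by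
  intro h
  have := κ.pow
  rw [h, zero_pow κ.m_ne] at this
  exact hg (by simpa using this.symm)

theorem σ_const (c : ℂ) : κ.σ (algebraMap ℂ L' c) = algebraMap ℂ L' c := by
  rw [IsScalarTower.algebraMap_apply ℂ L L', κ.σ.commutes]

/-- Iterates of the automorphism. -/
def σi (i : ℕ) : L' →ₐ[L] L' := κ.σ ^ i

theorem σi_zero (b : L') : κ.σi 0 b = b := by simp [σi]

theorem σi_succ (i : ℕ) (b : L') : κ.σi (i + 1) b = κ.σ (κ.σi i b) := by
  rw [σi, pow_succ']; rfl

theorem σi_const (i : ℕ) (c : ℂ) : κ.σi i (algebraMap ℂ L' c) = algebraMap ℂ L' c := by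
  rw [IsScalarTower.algebraMap_apply ℂ L L', (κ.σi i).commutes]

theorem σi_η (i : ℕ) : κ.σi i κ.η = algebraMap ℂ L' (κ.ζ ^ i) * κ.η := by
  induction i with
  | zero => rw [σi_zero, pow_zero, map_one, one_mul]
  | succ i ih =>
    rw [σi_succ, ih, _root_.map_mul, σ_const, κ.map, ← mul_assoc, ← _root_.map_mul, pow_succ]

/-- The element with coefficients `a`. -/
def el (a : ℕ → L) : L' := ∑ j ∈ Finset.range m, algebraMap L L' (a j) * κ.η ^ j

theorem exists_el (b : L') : ∃ a : ℕ → L, b = κ.el a := by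
  obtain ⟨f, hf, hb⟩ := κ.rep b
  refine ⟨f.coeff, ?_⟩
  rw [hb, aeval_eq_sum_range' hf, el]
  exact Finset.sum_congr rfl fun j _ => by rw [Algebra.smul_def]

theorem el_eq_zero {a : ℕ → L} (h : κ.el a = 0) : ∀ j < m, a j = 0 := by
  classical
  set f : L[X] := ∑ j ∈ Finset.range m, C (a j) * X ^ j with hf
  have hc : ∀ j < m, f.coeff j = a j := by
    intro j hj
    rw [hf, finsetSum_coeff, Finset.sum_eq_single j]
    · simp
    · intro i _ hij
      rw [coeff_C_mul, coeff_X_pow, if_neg (Ne.symm hij), mul_zero]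
    · intro h; exact absurd (Finset.mem_range.2 hj) h
  have hd : f.natDegree < m := by
    have h0 := κ.m_ne
    have : f.natDegree ≤ m - 1 := by
      refine natDegree_sum_le_of_forall_le _ _ fun j hj => ?_
      refine (natDegree_C_mul_X_pow_le _ _).trans ?_
      have := Finset.mem_range.1 hj
      omega
    omega
  have h1 : aeval κ.η f = 0 := by
    rw [hf, map_sum, ← h, el]
    refine Finset.sum_congr rfl fun j _ => ?_
    rw [_root_.map_mul, _root_.map_pow, aeval_X, aeval_C]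
  have h2 := κ.uniq f hd h1
  intro j hj
  rw [← hc j hj, h2, coeff_zero]

theorem σi_el (i : ℕ) (a : ℕ → L) :
    κ.σi i (κ.el a) = ∑ j ∈ Finset.range m,
      algebraMap ℂ L' (κ.ζ ^ (i * j)) * (algebraMap L L' (a j) * κ.η ^ j) := by
  rw [el, map_sum]
  refine Finset.sum_congr rfl fun j _ => ?_
  rw [_root_.map_mul, (κ.σi i).commutes, _root_.map_pow, σi_η, mul_pow,
    ← _root_.map_pow, ← pow_mul]
  ring

/-- Orthogonality: the component of index `j`. -/
theorem component (a : ℕ → L) (j : ℕ) (hj : j < m) :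
    algebraMap ℂ L' m * (algebraMap L L' (a j) * κ.η ^ j) =
      ∑ i ∈ Finset.range m, algebraMap ℂ L' ((κ.ζ⁻¹) ^ (i * j)) * κ.σi i (κ.el a) := by
  classical
  have hζ0 : κ.ζ ≠ 0 := κ.prim.ne_zero κ.m_ne
  have h1 : ∀ i ∈ Finset.range m, algebraMap ℂ L' ((κ.ζ⁻¹) ^ (i * j)) * κ.σi i (κ.el a) =
      ∑ l ∈ Finset.range m, algebraMap ℂ L' ((κ.ζ ^ l * (κ.ζ⁻¹) ^ j) ^ i) *
        (algebraMap L L' (a l) * κ.η ^ l) := by
    intro i _
    rw [σi_el, Finset.mul_sum]
    refine Finset.sum_congr rfl fun l _ => ?_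
    rw [← mul_assoc, ← _root_.map_mul]
    congr 2
    rw [mul_pow, ← pow_mul, ← pow_mul, mul_comm i j, mul_comm l i]
    ring
  rw [Finset.sum_congr rfl h1, Finset.sum_comm, Finset.sum_eq_single j]
  · rw [← Finset.sum_mul, ← map_sum]
    congr 2
    have : κ.ζ ^ j * κ.ζ⁻¹ ^ j = 1 := by rw [← mul_pow, mul_inv_cancel₀ hζ0, one_pow]
    rw [this]
    simp
  · intro l hl hlj
    rw [← Finset.sum_mul, ← map_sum]
    have hlm := Finset.mem_range.1 hl
    have hne : κ.ζ ^ l * κ.ζ⁻¹ ^ j ≠ 1 := by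
      intro h
      apply hlj
      refine κ.prim.pow_inj hlm hj ?_
      calc κ.ζ ^ l = κ.ζ ^ l * κ.ζ⁻¹ ^ j * κ.ζ ^ j := by
            rw [mul_assoc, ← mul_pow, inv_mul_cancel₀ hζ0, one_pow, mul_one]
        _ = _ := by rw [h, one_mul]
    have hone : (κ.ζ ^ l * κ.ζ⁻¹ ^ j) ^ m = 1 := by
      rw [mul_pow, ← pow_mul, ← pow_mul, mul_comm l, mul_comm j, pow_mul, pow_mul, inv_pow,
        κ.prim.pow_eq_one, one_pow, inv_one, one_pow, one_mul]
    rw [geom_sum_eq hne, hone, sub_self, zero_div, map_zero, zero_mul]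
  · intro h; exact absurd (Finset.mem_range.2 hj) h

end Kum

end

end LCY
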