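import Pool.Agent.Helper99.LCY.CovStmts
import Pool.Agent.Helper73.LCY.DerE

/-!
The measure in Kummer extensions, and the degree of an admissible pair (block COV of
MP_f7e214_ag).
-/

open Polynomial Pool.Agent.Helper82.LCY

set_option linter.unusedSectionVars false

namespace LCY

noncomputable section

/-- The value of the 2-form. -/
theorem br8s : ST_BR8s := by
  intro L _ _ hfg htr ω v
  obtain ⟨k, h1, h2, h3⟩ := H73.br8s htr hfg ω v
  refine ⟨k, h1, fun t a ht ha => ?_⟩
  exact h2 t a (Or.inr (v.resTr_val ht).ge) ha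

section one

variable {L : Type} [Field L] [Algebra ℂ L]

theorem goodWt_of_wt {N : ℕ} {ω : Bracket L} {x : Fin (N + 1) → L} (hA : Adm ω x) {v : DVal L}
    {k : ℤ} (h : ω.Wt v k) : GoodWt ω v k := by
  obtain ⟨l, hl⟩ := br8s L hA.fg hA.trdeg ω v
  have := hl.unique h
  subst this
  exact hl

theorem exists_isMin {N : ℕ} {x : Fin (N + 1) → L} (h : ∃ i, x i ≠ 0) (v : DVal L) :
    ∃ μ, IsMin x v μ := by
  classical
  obtain ⟨i, hi⟩ := h
  obtain ⟨j, hj, hmin⟩ := Finset.exists_min_image (Finset.univ.filter fun i => x i ≠ 0)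
    (fun i => v.v (x i)) ⟨i, Finset.mem_filter.2 ⟨Finset.mem_univ _, hi⟩⟩
  rw [Finset.mem_filter] at hj
  refine ⟨v.v (x j), fun l hl => hmin l (Finset.mem_filter.2 ⟨Finset.mem_univ _, hl⟩), j, hj.2, rfl⟩

theorem ev_inj_of_indep {x y : L} (h : AlgebraicIndependent ℂ ![x, y]) (P : ℂ[X][X])
    (hP : ev x y P = 0) : P = 0 := by
  have hcomp : ∀ Q : ℂ[X][X], MvPolynomial.aeval ![x, y]
      (Bivariate.equivMvPolynomial ℂ Q) = ev x y Q := by
    intro Q
    have : ((MvPolynomial.aeval ![x, y] : MvPolynomial (Fin 2) ℂ →ₐ[ℂ] L).toRingHom.comp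
        (Bivariate.equivMvPolynomial ℂ : ℂ[X][X] →ₐ[ℂ] MvPolynomial (Fin 2) ℂ).toRingHom) =
        ev x y := by
      apply Polynomial.ringHom_ext'
      · apply Polynomial.ringHom_ext'
        · ext c
          simp
        · simp
      · simp
    exact congrArg (fun φ : ℂ[X][X] →+* L => φ Q) this
  have h1 := (algebraicIndependent_iff.1 h) _ ((hcomp P).trans hP)
  simpa using h1

open scoped IntermediateField.algebraAdjoinAdjoin in
/-- An admissible pair has positive degree. -/
theorem Adm.dl_one {N : ℕ} {ω : Bracket L} {x : Fin (N + 1) → L} (hA : Adm ω x) : Dl x 1 := by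
  classical
  obtain ⟨l, hl⟩ := hA.nz
  have halg := hA.alg l hl
  set s : Set L := Set.range fun j => x j / x l with hs
  have halg2 : Algebra.IsAlgebraic (Algebra.adjoin ℂ s) L :=
    (IsFractionRing.comap_isAlgebraic_iff (A := Algebra.adjoin ℂ s)
      (K := IntermediateField.adjoin ℂ s) (C := L)).2 halg
  obtain ⟨B, hBs, hB⟩ := exists_isTranscendenceBasis_subset (R := ℂ) (A := L) s
  have hcard : Cardinal.mk B = 2 := by rw [hB.cardinalMk_eq_trdeg, hA.trdeg]
  obtain ⟨a, b, hab, hBab⟩ := Cardinal.mk_eq_two_iff.1 hcard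
  obtain ⟨i, hi⟩ := hBs a.2
  obtain ⟨j, hj⟩ := hBs b.2
  dsimp only at hi hj
  refine ⟨i, j, l, hl, Unit, inferInstance, fun _ => 1, by simp, fun p hp u => ?_⟩
  have h1 : AlgebraicIndependent ℂ (fun c : B => (c : L)) := hB.1
  have h2 : Function.Injective ![a, b] := by
    intro m n hmn
    fin_cases m <;> fin_cases n <;> simp_all
  have h3 := h1.comp ![a, b] h2
  have h4 : ((fun c : B => (c : L)) ∘ ![a, b]) = ![(a : L), (b : L)] := by
    funext m
    fin_cases m <;> rfl
  rw [h4] at h3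
  refine ev_inj_of_indep h3 _ ?_
  rw [← hi, ← hj]
  simpa using hp

end one

variable {L : Type} [Field L] [Algebra ℂ L] {L' : Type} [Field L'] [Algebra ℂ L'] [Algebra L L']
  [IsScalarTower ℂ L L'] [FiniteDimensional L L']

/-- A power of the automorphism is bijective. -/
theorem Kum.bij {m : ℕ} {g : L} (κ : Kum L L' m g) (i : ℕ) : Function.Bijective (κ.σi i) :=
  Algebra.IsAlgebraic.algHom_bijective (κ.σi i)

/-- The norm of an element lies in `L`. -/
theorem Kum.norm_mem {m : ℕ} {g : L} (κ : Kum L L' m g) (b : L') :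
    ∃ a : L, algebraMap L L' a = ∏ i ∈ Finset.range m, κ.σi i b := by
  have hζ : κ.ζ ^ m = 1 := κ.prim.pow_eq_one
  have hm0 := κ.m_ne
  -- `σ ^ m` is the identity
  have hσm : ∀ z, κ.σi m z = z := by
    intro z
    obtain ⟨a, rfl⟩ := κ.exists_el z
    rw [κ.σi_el, Kum.el]
    refine Finset.sum_congr rfl fun j _ => ?_
    rw [pow_mul, hζ, one_pow, map_one, one_mul]
  set n : L' := ∏ i ∈ Finset.range m, κ.σi i b with hn
  have hfix : κ.σ n = n := by
    have h1 : κ.σ n = ∏ i ∈ Finset.range m, κ.σi (i + 1) b := by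
      rw [hn, map_prod]
      exact Finset.prod_congr rfl fun i _ => (κ.σi_succ i b).symm
    have h2 : (∏ i ∈ Finset.range m, κ.σi (i + 1) b) * κ.σi 0 b = n * κ.σi m b := by
      rw [← Finset.prod_range_succ' (fun i => κ.σi i b) m, hn,
        ← Finset.prod_range_succ (fun i => κ.σi i b) m]
    rw [hσm, κ.σi_zero] at h2
    rcases eq_or_ne b 0 with hb | hb
    · have h3 : n = 0 := by
        rw [hn]
        exact Finset.prod_eq_zero (Finset.mem_range.2 (Nat.pos_of_ne_zero hm0)) (by rw [hb, map_zero])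
      rw [h3, map_zero]
    · rw [h1]
      exact mul_right_cancel₀ hb h2
  obtain ⟨a, ha⟩ := κ.exists_el n
  -- all coefficients of positive index vanish
  have hfixi : ∀ i, κ.σi i n = n := by
    intro i
    induction i with
    | zero => rw [κ.σi_zero]
    | succ i ih => rw [κ.σi_succ, ih, hfix]
  have hcomp : ∀ j < m, j ≠ 0 → algebraMap L L' (a j) * κ.η ^ j = 0 := by
    intro j hj hj0
    have h2 := κ.component a j hj
    have h3 : ∑ i ∈ Finset.range m, algebraMap ℂ L' ((κ.ζ⁻¹) ^ (i * j)) * κ.σi i (κ.el a) = 0 := by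
      rw [← ha]
      simp only [hfixi]
      rw [← Finset.sum_mul, ← map_sum]
      have hζ0 : κ.ζ ≠ 0 := κ.prim.ne_zero hm0
      have h4 : κ.ζ⁻¹ ^ j ≠ 1 := by
        intro h
        rw [inv_pow, inv_eq_one] at h
        exact hj0 (κ.prim.pow_inj hj (Nat.pos_of_ne_zero hm0) (by rw [h, pow_zero]))
      have h5 : ∑ i ∈ Finset.range m, (κ.ζ⁻¹) ^ (i * j) = 0 := by
        have h6 : ∀ i ∈ Finset.range m, (κ.ζ⁻¹) ^ (i * j) = (κ.ζ⁻¹ ^ j) ^ i := fun i _ => by
          rw [← pow_mul, mul_comm]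
        rw [Finset.sum_congr rfl h6, geom_sum_eq h4, ← pow_mul, mul_comm, pow_mul, inv_pow, hζ,
          inv_one, one_pow, sub_self, zero_div]
      rw [h5, map_zero, zero_mul]
    rw [h3] at h2
    refine (mul_eq_zero.1 h2).resolve_left ?_
    have : (m : ℂ) ≠ 0 := by exact_mod_cast hm0
    simpa using natCast_ne L' hm0
  refine ⟨a 0, ?_⟩
  rw [ha, Kum.el, Finset.sum_eq_single 0]
  · rw [pow_zero, mul_one]
  · intro j hj hj0
    exact hcomp j (Finset.mem_range.1 hj) hj0
  · intro h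
    exact absurd (Finset.mem_range.2 (Nat.pos_of_ne_zero hm0)) h

theorem DVal.map_prod {ι : Type} (v : DVal L) (s : Finset ι) (f : ι → L)
    (h : ∀ i ∈ s, f i ≠ 0) : v.v (∏ i ∈ s, f i) = ∑ i ∈ s, v.v (f i) := by
  classical
  induction s using Finset.induction_on with
  | empty => rw [Finset.prod_empty, Finset.sum_empty, v.map_one]
  | insert a s ha ih =>
    rw [Finset.prod_insert ha, Finset.sum_insert ha, v.map_mul _ _ (h a (Finset.mem_insert_self a s))
      (Finset.prod_ne_zero_iff.2 fun i hi => h i (Finset.mem_insert_of_mem hi)),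
      ih fun i hi => h i (Finset.mem_insert_of_mem hi)]

/-- Conjugates of an extension are extensions. -/
theorem DVal.Over.conj {v' : DVal L'} {e : ℤ} {v : DVal L} (h : DVal.Over v' e v)
    (τ : L' →ₐ[L] L') (hτ : Function.Bijective τ) : DVal.Over (v'.conj τ hτ) e v := by
  refine ⟨h.1, fun a ha => ?_⟩
  change v'.v (τ (algebraMap L L' a)) = _
  rw [τ.commutes, h.2 a ha]

/-- M4. The measure descends. -/
theorem Kum.mm {m : ℕ} {g : L} (κ : Kum L L' m g) (hg : g ≠ 0) {N : ℕ} {ω : Bracket L}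
    {x : Fin (N + 1) → L} (hA : Adm ω x)
    (hm : ∀ (v : DVal L) (k : ℤ), ω.Wt v k → (¬ Contracted x v ∨ k = -1) → (m : ℤ) ∣ v.v g)
    {l r : ℤ} (h : MM (ω.ext L') (fun i => algebraMap L L' (x i)) l r) :
    MM ω x (m * l) (m * r) := by
  obtain ⟨h', hh', hM⟩ := h
  obtain ⟨a, ha⟩ := κ.norm_mem h'
  have hne : ∀ i, κ.σi i h' ≠ 0 := fun i => by rw [Ne, map_eq_zero]; exact hh'
  have ha0 : a ≠ 0 := by
    intro h0
    rw [h0, map_zero] at ha
    exact Finset.prod_ne_zero_iff.2 (fun i _ => hne i) ha.symm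
  refine ⟨a, ha0, fun v k μ hv hk hμ => ?_⟩
  obtain ⟨e, v', ho⟩ := DVal.exists_over (L' := L') v
  have hgk := goodWt_of_wt hA hk
  obtain ⟨k', hk'⟩ := br8s L' (κ.fg hA.fg) (trdeg_ext hA.trdeg) (ω.ext L') v'
  have he := κ.ram hg hgk hk' ho (hm v k hk hv)
  subst he
  -- the inequality at all conjugates
  have key : ∀ i, r * μ ≤ l * k + v'.v (κ.σi i h') := by
    intro i
    set w := v'.conj (κ.σi i) (κ.bij i) with hw
    have how : DVal.Over w 1 v := ho.conj _ _
    obtain ⟨k'', hk''⟩ := br8s L' (κ.fg hA.fg) (trdeg_ext hA.trdeg) (ω.ext L') w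
    have h2 := wt_over hgk hk'' how
    have h3 : k'' = k := by linarith
    subst h3
    refine hM w k'' μ ?_ hk''.wt ?_
    · rcases hv with hv | hv
      · left; rwa [contracted_over how]
      · right; exact hv
    · refine ⟨fun j hj => ?_, ?_⟩
      · have hj' : x j ≠ 0 := by simpa using hj
        rw [how.2 _ hj', one_mul]
        exact hμ.1 j hj'
      · obtain ⟨j, hj, h4⟩ := hμ.2
        exact ⟨j, by simpa using hj, by rw [how.2 _ hj, one_mul, h4]⟩
  have hsum : ∑ i ∈ Finset.range m, (r * μ) ≤ ∑ i ∈ Finset.range m, (l * k + v'.v (κ.σi i h')) :=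
    Finset.sum_le_sum fun i _ => key i
  rw [Finset.sum_const, Finset.card_range, Finset.sum_add_distrib, Finset.sum_const,
    Finset.card_range, ← DVal.map_prod _ _ _ fun i _ => hne i, ← ha, ho.2 a ha0, one_mul] at hsum
  simp only [nsmul_eq_mul] at hsum
  linarith

end

end LCY
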