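import Pool.Agent.Helper99.LCY.Ram
import Pool.Agent.Helper48.LCY.Top

/-!
Admissible pairs and families in Kummer extensions (block COV of MP_f7e214_ag).
-/

open Polynomial

set_option linter.unusedSectionVars false

namespace LCY

noncomputable section

variable {L : Type} [Field L] [Algebra ℂ L] {L' : Type} [Field L'] [Algebra ℂ L'] [Algebra L L']
  [IsScalarTower ℂ L L'] [Algebra.IsAlgebraic L L']

theorem trdeg_ext (h : Algebra.trdeg ℂ L = 2) : Algebra.trdeg ℂ L' = 2 := by
  have h1 := _root_.trdeg_add_eq ℂ L (A := L')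
  rw [← h1, h, _root_.trdeg_eq_zero, add_zero]

theorem contracted_over {N : ℕ} {x : Fin (N + 1) → L} {v' : DVal L'} {e : ℤ} {v : DVal L}
    (ho : DVal.Over v' e v) :
    Contracted (fun i => algebraMap L L' (x i)) v' ↔ Contracted x v := by
  have hne : ∀ i, algebraMap L L' (x i) ≠ 0 ↔ x i ≠ 0 := fun i => by simp
  have hI : ∀ i j, v'.Int (algebraMap L L' (x j) / algebraMap L L' (x i)) ↔ v.Int (x j / x i) :=
    fun i j => by rw [← map_div₀]; exact ho.int_iff
  have hP : ∀ i j (c : ℂ), v'.Pos (algebraMap L L' (x j) / algebraMap L L' (x i) -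
      algebraMap ℂ L' c) ↔ v.Pos (x j / x i - algebraMap ℂ L c) := fun i j c => by
    rw [← map_div₀, IsScalarTower.algebraMap_apply ℂ L L' c, ← map_sub]
    exact ho.pos_iff
  constructor
  · intro h i hi hj j
    obtain ⟨c, hc⟩ := h i ((hne i).2 hi) (fun j => (hI i j).2 (hj j)) j
    exact ⟨c, (hP i j c).1 hc⟩
  · intro h i hi hj j
    obtain ⟨c, hc⟩ := h i ((hne i).1 hi) (fun j => (hI i j).1 (hj j)) j
    exact ⟨c, (hP i j c).2 hc⟩

/-- Elements of `adjoin ℂ s` map into the adjunction of the image. -/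
theorem map_mem_adjoin {s : Set L} {a : L} (ha : a ∈ IntermediateField.adjoin ℂ s) :
    algebraMap L L' a ∈ IntermediateField.adjoin ℂ (algebraMap L L' '' s) := by
  have h1 := IntermediateField.adjoin_map ℂ s (IsScalarTower.toAlgHom ℂ L L')
  have h2 : (IsScalarTower.toAlgHom ℂ L L') a ∈
      (IntermediateField.adjoin ℂ s).map (IsScalarTower.toAlgHom ℂ L L') := ⟨a, ha, rfl⟩
  rw [h1] at h2
  exact h2

theorem alg_ext {s : Set L} (h : Algebra.IsAlgebraic (IntermediateField.adjoin ℂ s) L) :
    Algebra.IsAlgebraic (IntermediateField.adjoin ℂ (algebraMap L L' '' s)) L' := by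
  constructor
  intro b
  have h1 : IsAlgebraic (IntermediateField.adjoin ℂ s) b :=
    (Algebra.IsAlgebraic.trans (IntermediateField.adjoin ℂ s) L L').isAlgebraic b
  obtain ⟨p, hp, hpb⟩ := h1
  let f : IntermediateField.adjoin ℂ s →+* IntermediateField.adjoin ℂ (algebraMap L L' '' s) :=
    { toFun := fun a => ⟨algebraMap L L' a, map_mem_adjoin a.2⟩
      map_one' := Subtype.ext (by simp)
      map_mul' := fun a b => Subtype.ext (by simp)
      map_zero' := Subtype.ext (by simp)
      map_add' := fun a b => Subtype.ext (by simp) }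
  refine ⟨p.map f, ?_, ?_⟩
  · rwa [Ne, Polynomial.map_eq_zero]
  · rw [aeval_def, eval₂_map, ← hpb, aeval_def]
    rfl

theorem Kum.fg {m : ℕ} {g : L} (κ : Kum L L' m g)
    (h : ∃ s : Finset L, IntermediateField.adjoin ℂ (s : Set L) = ⊤) :
    ∃ s : Finset L', IntermediateField.adjoin ℂ (s : Set L') = ⊤ := by
  classical
  obtain ⟨s, hs⟩ := h
  refine ⟨insert κ.η (s.image (algebraMap L L')), ?_⟩
  rw [eq_top_iff]
  rintro b -
  obtain ⟨a, rfl⟩ := κ.exists_el b
  rw [Kum.el]
  refine sum_mem fun j _ => mul_mem ?_ (pow_mem ?_ _)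
  · have h1 : a j ∈ IntermediateField.adjoin ℂ (s : Set L) := by rw [hs]; trivial
    have h2 := map_mem_adjoin (L' := L') h1
    refine IntermediateField.adjoin.mono ℂ _ _ ?_ h2
    rw [Finset.coe_insert, Finset.coe_image]
    exact Set.subset_insert _ _
  · apply IntermediateField.subset_adjoin
    rw [Finset.coe_insert]
    exact Set.mem_insert _ _

/-- A Kummer extension that is unramified over the places that are not contracted carries an
admissible pair. -/
theorem Kum.adm (hBR : ST_BR8s) {m : ℕ} {g : L} (κ : Kum L L' m g) (hg : g ≠ 0) {N : ℕ}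
    {ω : Bracket L} {x : Fin (N + 1) → L} (h : Adm ω x)
    (hm : ∀ v : DVal L, ¬ Contracted x v → (m : ℤ) ∣ v.v g) :
    Adm (ω.ext L') (fun i => algebraMap L L' (x i)) where
  fg := κ.fg h.fg
  trdeg := trdeg_ext h.trdeg
  nz := by
    obtain ⟨i, hi⟩ := h.nz
    exact ⟨i, by simpa using hi⟩
  alg := by
    intro i hi
    have h1 := alg_ext (L' := L') (h.alg i (by simpa using hi))
    have h2 : (Set.range fun j => algebraMap L L' (x j) / algebraMap L L' (x i)) =
        algebraMap L L' '' (Set.range fun j => x j / x i) := by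
      rw [← Set.range_comp]
      congr 1
      funext j
      simp
    rw [h2]
    exact h1
  h1 := by
    intro v' k' hw
    obtain ⟨e, v, ho⟩ := DVal.exists_restrict (L := L) v'
    obtain ⟨k, hk⟩ := hBR L h.fg h.trdeg ω v
    obtain ⟨k'', hk''⟩ := hBR L' (κ.fg h.fg) (trdeg_ext h.trdeg) (ω.ext L') v'
    have h1 := hk''.unique hw
    subst h1
    have h2 := wt_over hk hk'' ho
    have h3 := h.h1 v k hk.wt
    have h4 : 0 ≤ e * (k + 1) := mul_nonneg ho.1.le (by linarith)
    linarith
  h2 := by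
    intro v' k' hw hc
    obtain ⟨e, v, ho⟩ := DVal.exists_restrict (L := L) v'
    obtain ⟨k, hk⟩ := hBR L h.fg h.trdeg ω v
    obtain ⟨k'', hk''⟩ := hBR L' (κ.fg h.fg) (trdeg_ext h.trdeg) (ω.ext L') v'
    have h1 := hk''.unique hw
    subst h1
    rw [contracted_over ho] at hc
    have h2 := wt_over hk hk'' ho
    have h3 := h.h2 v k hk.wt hc
    have h4 := κ.ram hg hk hk'' ho (hm v hc)
    subst h4
    linarith

/-- Algebraic rational functions are constant. -/
theorem ratFunc_const {K : Type} [Field K] {r : RatFunc K}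
    (h : ∃ p : K[X], p ≠ 0 ∧ p.eval₂ (RatFunc.C (K := K)) r = 0) : ∃ c : K, r = RatFunc.C c := by
  obtain ⟨p, hp, hr⟩ := h
  have halg : IsAlgebraic K r := ⟨p, hp, by rw [aeval_def, RatFunc.algebraMap_eq_C, hr]⟩
  have hint : IsIntegral K[X] r := halg.isIntegral.tower_top
  obtain ⟨q, hq⟩ := IsIntegrallyClosed.isIntegral_iff.1 hint
  have h1 : algebraMap K[X] (RatFunc K) (p.comp q) = 0 := by
    rw [← hr, ← hq, ← RatFunc.algebraMap_comp_C, ← hom_eval₂]
    rfl
  have h2 : p.comp q = 0 := by
    exact (map_eq_zero_iff _ (RatFunc.algebraMap_injective K)).1 h1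
  rcases comp_eq_zero_iff.1 h2 with h3 | ⟨-, h3⟩
  · exact absurd h3 hp
  · exact ⟨q.coeff 0, by rw [← hq, h3, RatFunc.algebraMap_C]; simp⟩

/-- Families on an algebraic extension give families. -/
theorem fam_of_ext (hBR : ST_BR8s) {N : ℕ} {ω : Bracket L} {x : Fin (N + 1) → L} (h : Adm ω x)
    (hfg : ∃ s : Finset L', IntermediateField.adjoin ℂ (s : Set L') = ⊤)
    (hF : Fam (ω.ext L') (fun i => algebraMap L L' (x i))) : Fam ω x := by
  obtain ⟨K, i1, i2, ι, ⟨b, hb⟩, hP⟩ := hF
  refine ⟨K, i1, i2, ι.comp (IsScalarTower.toAlgHom ℂ L L'), ?_, ?_⟩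
  · by_contra hcon
    push Not at hcon
    have h1 : ∀ z : L, ∃ c : K, ι (algebraMap L L' z) = RatFunc.C c := hcon
    choose f hf using h1
    obtain ⟨p, hp, hpb⟩ := (Algebra.IsAlgebraic.isAlgebraic b : IsAlgebraic L b)
    have hcomp : ∀ z, RatFunc.C (K := K) (f z) = ι (algebraMap L L' z) := fun z => (hf z).symm
    have hex : ∃ q : K[X], q ≠ 0 ∧ q.eval₂ (RatFunc.C (K := K)) (ι b) = 0 := by
      refine ⟨∑ i ∈ Finset.range (p.natDegree + 1), C (f (p.coeff i)) * X ^ i, ?_, ?_⟩
      swap
      · rw [eval₂_finsetSum]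
        have h5 : ι (aeval b p) = 0 := by rw [hpb, map_zero]
        rw [aeval_eq_sum_range, map_sum] at h5
        rw [← h5]
        refine Finset.sum_congr rfl fun i _ => ?_
        rw [eval₂_mul, eval₂_C, eval₂_pow, eval₂_X, hcomp, Algebra.smul_def, _root_.map_mul,
          _root_.map_pow]
      intro h0
      have h2 := congrArg (fun q => coeff q p.natDegree) h0
      simp only [finsetSum_coeff, coeff_C_mul, coeff_X_pow, coeff_zero] at h2
      rw [Finset.sum_eq_single p.natDegree] at h2
      · rw [if_pos rfl, mul_one] at h2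
        have h3 := hcomp (p.coeff p.natDegree)
        rw [h2, map_zero] at h3
        have h4 : algebraMap L L' (p.coeff p.natDegree) = 0 := by
          have := h3.symm
          rwa [map_eq_zero] at this
        exact hp (leadingCoeff_eq_zero.1 (by simpa using h4))
      · intro i _ hi
        rw [if_neg (Ne.symm hi), mul_zero]
      · intro h; exact absurd (Finset.mem_range.2 (Nat.lt_succ_self _)) h
    obtain ⟨c, hc⟩ := ratFunc_const hex
    exact hb c hc
  · intro P hP1 hP2
    rcases hP P hP1 hP2 with h1 | ⟨v', h1, h2, h3⟩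
    · left
      intro z
      exact h1 (algebraMap L L' z)
    · right
      obtain ⟨e, v, ho⟩ := DVal.exists_restrict (L := L) v'
      obtain ⟨k, hk⟩ := hBR L h.fg h.trdeg ω v
      obtain ⟨k'', hk''⟩ := hBR L' hfg (trdeg_ext h.trdeg) (ω.ext L') v'
      have h4 := hk''.unique h2
      subst h4
      have h5 := wt_over hk hk'' ho
      have h6 : k = 0 := by
        have h7 : e * (k + 1) = 1 := by linarith
        have h8 : e ∣ 1 := ⟨k + 1, h7.symm⟩
        have h9 : e = 1 := le_antisymm (Int.le_of_dvd one_pos h8) ho.1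
        rw [h9] at h7
        linarith
      subst h6
      refine ⟨v, ?_, hk.wt, ?_⟩
      · rwa [contracted_over ho] at h1
      · intro z
        rw [← ho.int_iff (a := z)]
        exact h3 (algebraMap L L' z)

end

end LCY
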