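import Pool.Agent.Helper99.LCY.CovMain
import Pool.Agent.Helper89.LCY.CovP
import Pool.Agent.Helper36.LCY.M3
import Pool.Agent.Helper51.LCY.G1
import Pool.Agent.Helper11.LCY.Fin3

/-!
The block COVERS of MP_f7e214_ag, without hypotheses.
-/

namespace LCY

namespace Fin3

/-- The cover defined by a torsion class. -/
theorem covg : ST_COVG :=
  H89.covg a6 a7 a8 a9 a15 a16 a17 a18 ty b2k b3 b4 d0 c3 c4 c5 pg step
    fun _ _ _ _ ω _ hA v _ hk => wtProp hA.trdeg hA.fg ω v hk

/-- **The induction over covers.** -/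
theorem cov : ST_COV := cov_of covg (H36.m3 b1 b2k)

end Fin3

end LCY
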