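import Pool.Agent.Helper51.LCY.P2

/-!
Extension of a bracket to an algebraic extension (block COV of MP_f7e214_ag).
-/

open Polynomial TensorProduct

namespace LCY

noncomputable section

namespace Bracket

variable {L : Type} [Field L] [Algebra ℂ L]

theorem smul_left (ω : Bracket L) (z : ℂ) (a b : L) : ω.br (z • a) b = z • ω.br a b := by
  rw [Algebra.smul_def, ω.mul_left, ω.const_left, mul_zero, add_zero, Algebra.smul_def]

theorem smul_right (ω : Bracket L) (z : ℂ) (a b : L) : ω.br a (z • b) = z • ω.br a b := by
  rw [ω.skew, ω.smul_left, ω.skew b a, smul_neg, neg_neg]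

/-- The derivation `br(·, b)`. -/
def derL (ω : Bracket L) (b : L) : Derivation ℂ L L where
  toFun a := ω.br a b
  map_add' a a' := ω.add_left a a' b
  map_smul' z a := ω.smul_left z a b
  map_one_eq_zero' := by
    have := ω.const_left 1 b
    simpa using this
  leibniz' a a' := by
    change ω.br (a * a') b = a • ω.br a' b + a' • ω.br a b
    rw [ω.mul_left]; simp

/-- The bracket as a bilinear form on the Kähler differentials. -/
def form (ω : Bracket L) : Ω[L⁄ℂ] →ₗ[L] Ω[L⁄ℂ] →ₗ[L] L :=
  ({ toFun := fun b => (ω.derL b).liftKaehlerDifferential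
     map_add' := by
      intro b b'
      apply Derivation.liftKaehlerDifferential_unique
      ext a
      simp [derL, ω.add_right]
     map_smul' := by
      intro z b
      apply Derivation.liftKaehlerDifferential_unique
      ext a
      simp [derL, ω.smul_right]
     map_one_eq_zero' := by
      apply Derivation.liftKaehlerDifferential_unique
      ext a
      have := ω.const_right a 1
      simpa [derL] using this
     leibniz' := by
      intro b b'
      apply Derivation.liftKaehlerDifferential_unique
      ext a
      simp [derL, ω.mul_right] } : Derivation ℂ L (Ω[L⁄ℂ] →ₗ[L] L)).liftKaehlerDifferential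

theorem form_D (ω : Bracket L) (a b : L) :
    ω.form (KaehlerDifferential.D ℂ L b) (KaehlerDifferential.D ℂ L a) = ω.br a b := by
  simp [form, derL]

variable (ω : Bracket L) (L' : Type) [Field L'] [Algebra ℂ L'] [Algebra L L']
  [IsScalarTower ℂ L L'] [Algebra.IsAlgebraic L L']

instance formallyEtale_of_alg (L L' : Type) [Field L] [Algebra ℂ L] [Field L'] [Algebra ℂ L']
    [Algebra L L'] [IsScalarTower ℂ L L'] [Algebra.IsAlgebraic L L'] :
    Algebra.FormallyEtale L L' := by
  have : CharZero L := charZero_of_injective_algebraMap (algebraMap ℂ L).injective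
  exact Algebra.FormallyEtale.of_isSeparable L L'

/-- The extended form, not yet antisymmetrised. -/
def extForm (a b : L') : L' :=
  LinearMap.BilinForm.baseChange L' ω.form
    ((KaehlerDifferential.tensorKaehlerEquivOfFormallyEtale ℂ L L').symm
      (KaehlerDifferential.D ℂ L' b))
    ((KaehlerDifferential.tensorKaehlerEquivOfFormallyEtale ℂ L L').symm
      (KaehlerDifferential.D ℂ L' a))

theorem extForm_algebraMap (a b : L) :
    ω.extForm L' (algebraMap L L' a) (algebraMap L L' b) = algebraMap L L' (ω.br a b) := by
  rw [extForm, KaehlerDifferential.tensorKaehlerEquivOfFormallyEtale_symm_D_algebraMap,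
    KaehlerDifferential.tensorKaehlerEquivOfFormallyEtale_symm_D_algebraMap,
    LinearMap.BilinForm.baseChange_tmul, ω.form_D]
  simp [Algebra.smul_def]

theorem extForm_add_left (a b c : L') :
    ω.extForm L' (a + b) c = ω.extForm L' a c + ω.extForm L' b c := by
  simp [extForm]

theorem extForm_add_right (a b c : L') :
    ω.extForm L' a (b + c) = ω.extForm L' a b + ω.extForm L' a c := by
  simp [extForm]

theorem extForm_mul_left (a b c : L') :
    ω.extForm L' (a * b) c = a * ω.extForm L' b c + b * ω.extForm L' a c := by
  simp [extForm]

theorem extForm_mul_right (a b c : L') :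
    ω.extForm L' a (b * c) = b * ω.extForm L' a c + c * ω.extForm L' a b := by
  simp [extForm]

theorem extForm_const_left (z : ℂ) (c : L') : ω.extForm L' (algebraMap ℂ L' z) c = 0 := by
  simp [extForm]

theorem extForm_const_right (z : ℂ) (c : L') : ω.extForm L' c (algebraMap ℂ L' z) = 0 := by
  simp [extForm]

/-- The extension of a bracket to an algebraic extension. -/
def ext : Bracket L' where
  br a b := (2 : L')⁻¹ * (ω.extForm L' a b - ω.extForm L' b a)
  add_left a b c := by rw [extForm_add_left, extForm_add_right]; ring
  mul_left a b c := by rw [extForm_mul_left, extForm_mul_right]; ring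
  const_left z c := by rw [extForm_const_left, extForm_const_right]; ring
  alt a := by ring
  skew a b := by ring
  ne_zero := by
    obtain ⟨a, b, h⟩ := ω.ne_zero
    have : CharZero L' := charZero_of_injective_algebraMap (algebraMap ℂ L').injective
    refine ⟨algebraMap L L' a, algebraMap L L' b, ?_⟩
    rw [extForm_algebraMap, extForm_algebraMap, ω.skew b a, map_neg, sub_neg_eq_add, ← two_mul,
      ← mul_assoc, inv_mul_cancel₀ two_ne_zero, one_mul]
    simpa using h

theorem ext_algebraMap (a b : L) :
    (ω.ext L').br (algebraMap L L' a) (algebraMap L L' b) = algebraMap L L' (ω.br a b) := by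
  have : CharZero L' := charZero_of_injective_algebraMap (algebraMap ℂ L').injective
  change (2 : L')⁻¹ * (ω.extForm L' _ _ - ω.extForm L' _ _) = _
  rw [extForm_algebraMap, extForm_algebraMap, ω.skew b a, map_neg, sub_neg_eq_add, ← two_mul,
    ← mul_assoc, inv_mul_cancel₀ two_ne_zero, one_mul]

end Bracket

end

end LCY
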