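import Pool.Agent.Helper99.LCY.CovAdm
import Pool.Agent.Helper36.LCY.DVR
import Pool.Agent.Helper27.LCY.Loc

/-!
Extension of divisorial valuations to finite extensions (block COV of MP_f7e214_ag).
-/

open Polynomial WithZero IsDedekindDomain

set_option linter.unusedSectionVars false

namespace LCY

noncomputable section

namespace H99

section ded

variable {B K : Type} [CommRing B] [IsDedekindDomain B] [Field K] [Algebra B K]
  [IsFractionRing B K] (P : HeightOneSpectrum B)

/-- The valuation of a prime of a Dedekind domain, with additive integer values. -/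
def hsVal (K : Type) [Field K] [Algebra B K] [IsFractionRing B K] (a : K) : ℤ :=
  - log (P.valuation K a)

theorem hs_ne {a : K} (ha : a ≠ 0) : P.valuation K a ≠ 0 :=
  (Valuation.ne_zero_iff _).2 ha

theorem hsVal_mul {a b : K} (ha : a ≠ 0) (hb : b ≠ 0) :
    hsVal P K (a * b) = hsVal P K a + hsVal P K b := by
  unfold hsVal
  rw [map_mul, log_mul (hs_ne P ha) (hs_ne P hb)]
  ring

theorem hsVal_add {a b : K} (ha : a ≠ 0) (hb : b ≠ 0) (hab : a + b ≠ 0) :
    min (hsVal P K a) (hsVal P K b) ≤ hsVal P K (a + b) := by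
  unfold hsVal
  have h := Valuation.map_add (P.valuation K) a b
  rcases le_max_iff.1 h with h | h
  · rw [← log_le_log (hs_ne P hab) (hs_ne P ha)] at h
    exact (min_le_left _ _).trans (by omega)
  · rw [← log_le_log (hs_ne P hab) (hs_ne P hb)] at h
    exact (min_le_right _ _).trans (by omega)

theorem hsVal_nonneg (b : B) : 0 ≤ hsVal P K (algebraMap B K b) := by
  by_cases hb : algebraMap B K b = 0
  · rw [hb]; simp [hsVal]
  have h := P.valuation_le_one (K := K) b
  unfold hsVal
  rw [← log_le_log (hs_ne P hb) one_ne_zero, log_one] at h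
  omega

theorem hsVal_pos {b : B} (hb : algebraMap B K b ≠ 0) (h : b ∈ P.asIdeal) :
    0 < hsVal P K (algebraMap B K b) := by
  have h := (P.valuation_lt_one_iff_mem (K := K) b).2 h
  unfold hsVal
  rw [← log_lt_log (hs_ne P hb) one_ne_zero, log_one] at h
  omega

theorem hsVal_exists_one : ∃ π : K, π ≠ 0 ∧ hsVal P K π = 1 := by
  obtain ⟨π, hπ⟩ := HeightOneSpectrum.valuation_exists_uniformizer K P
  refine ⟨π, ?_, ?_⟩
  · rintro rfl
    rw [map_zero] at hπ
    exact (WithZero.coe_ne_zero hπ.symm).elim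
  · unfold hsVal
    rw [hπ]
    rfl

end ded

section ring

variable {L : Type} [Field L] [Algebra ℂ L] (v : DVal L)

theorem mem_ring_unit {u : L} (hu : u ≠ 0) (h : v.v u = 0) : u ∈ v.ring ∧ u⁻¹ ∈ v.ring :=
  ⟨Or.inr h.ge, Or.inr (by rw [v.map_inv hu, h]; norm_num)⟩

instance : IsFractionRing v.ring L := by
  obtain ⟨π, hπ, hv⟩ := v.exists_unif
  refine isFractionRing_of fun z => ?_
  by_cases hz : z = 0
  · exact ⟨0, v.ring.zero_mem, 1, v.ring.one_mem, one_ne_zero, by rw [hz, zero_mul]⟩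
  set n : ℕ := (- v.v z).toNat with hn
  have hπn : π ^ n ≠ 0 := pow_ne_zero _ hπ
  have hvn : v.v (π ^ n) = n := by rw [v.map_pow hπ, hv, mul_one]
  refine ⟨z * π ^ n, Or.inr ?_, π ^ n, Or.inr ?_, hπn, ?_⟩
  · rw [v.map_mul _ _ hz hπn, hvn]
    omega
  · rw [hvn]
    omega
  · rw [mul_inv_cancel_right₀ hπn]

instance : IsDiscreteValuationRing v.ring := by
  obtain ⟨π, hπ, hv⟩ := v.exists_unif
  apply IsDiscreteValuationRing.ofHasUnitMulPowIrreducibleFactorization
  have hu : ∀ (u : v.ring), (u : L) ≠ 0 → v.v (u : L) = 0 → IsUnit u := by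
    intro u hu h0
    have h1 := (mem_ring_unit v hu h0).2
    exact IsUnit.of_mul_eq_one ⟨(u : L)⁻¹, h1⟩ (Subtype.ext (mul_inv_cancel₀ hu))
  have hnu : ∀ (u : v.ring), IsUnit u → (u : L) ≠ 0 ∧ v.v (u : L) = 0 := by
    rintro u ⟨w, rfl⟩
    have h1 : ((w : v.ring) : L) * ((w⁻¹ : v.ringˣ) : v.ring) = 1 := by
      have := w.mul_inv
      exact congrArg (Subtype.val : v.ring → L) this
    have h2 : ((w : v.ring) : L) ≠ 0 := left_ne_zero_of_mul_eq_one h1
    have h3 : (((w⁻¹ : v.ringˣ) : v.ring) : L) ≠ 0 := right_ne_zero_of_mul_eq_one h1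
    refine ⟨h2, ?_⟩
    have h4 := v.map_mul _ _ h2 h3
    rw [h1, v.map_one] at h4
    have h5 : 0 ≤ v.v ((w : v.ring) : L) := (w : v.ring).2.resolve_left h2
    have h6 : 0 ≤ v.v (((w⁻¹ : v.ringˣ) : v.ring) : L) := ((w⁻¹ : v.ringˣ) : v.ring).2.resolve_left h3
    omega
  refine ⟨⟨π, Or.inr (by omega)⟩, ⟨?_, ?_⟩, ?_⟩
  · intro h
    have := (hnu _ h).2
    dsimp only at this
    omega
  · intro a b hab
    have h1 : π = (a : L) * b := congrArg (Subtype.val : v.ring → L) hab
    have ha : (a : L) ≠ 0 := by rintro h; rw [h, zero_mul] at h1; exact hπ h1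
    have hb : (b : L) ≠ 0 := by rintro h; rw [h, mul_zero] at h1; exact hπ h1
    have h2 := v.map_mul _ _ ha hb
    rw [← h1, hv] at h2
    have h3 : 0 ≤ v.v (a : L) := a.2.resolve_left ha
    have h4 : 0 ≤ v.v (b : L) := b.2.resolve_left hb
    by_cases h5 : v.v (a : L) = 0
    · exact Or.inl (hu a ha h5)
    · exact Or.inr (hu b hb (by omega))
  · intro x hx
    have hx0 : (x : L) ≠ 0 := fun h => hx (Subtype.ext h)
    have h1 : 0 ≤ v.v (x : L) := x.2.resolve_left hx0
    refine ⟨(v.v (x : L)).toNat, ?_⟩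
    have hπn : π ^ (v.v (x : L)).toNat ≠ 0 := pow_ne_zero _ hπ
    have h2 : v.v ((x : L) / π ^ (v.v (x : L)).toNat) = 0 := by
      rw [v.map_div hx0 hπn, v.map_pow hπ, hv, Int.toNat_of_nonneg h1]
      ring
    have h3 : (x : L) / π ^ (v.v (x : L)).toNat ≠ 0 := div_ne_zero hx0 hπn
    have h4 := hu ⟨(x : L) / π ^ (v.v (x : L)).toNat, Or.inr h2.ge⟩ h3 h2
    obtain ⟨w, hw⟩ := h4
    refine ⟨w, ?_⟩
    rw [hw]
    apply Subtype.ext
    exact mul_div_cancel₀ _ hπn

end ring

end H99

open H99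

variable {L : Type} [Field L] [Algebra ℂ L] {L' : Type} [Field L'] [Algebra ℂ L'] [Algebra L L']
  [IsScalarTower ℂ L L'] [FiniteDimensional L L']

/-- Extension of a divisorial valuation. -/
theorem DVal.exists_over (v : DVal L) : ∃ (e : ℤ) (v' : DVal L'), DVal.Over v' e v := by
  have hch : CharZero L := charZero_of_injective_algebraMap (algebraMap ℂ L).injective
  let B := integralClosure v.ring L'
  have hB : IsDedekindDomain B := integralClosure.isDedekindDomain v.ring L L'
  have hfr : IsFractionRing B L' := integralClosure.isFractionRing_of_finite_extension L L'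
  have hint : Algebra.IsIntegral v.ring B := inferInstance
  obtain ⟨π, hπ, hvπ⟩ := v.exists_unif
  have hinj : Function.Injective (algebraMap v.ring B) := by
    intro a b hab
    have h1 : algebraMap v.ring L' a = algebraMap v.ring L' b :=
      congrArg (Subtype.val : B → L') hab
    have h2 : algebraMap L L' (a : L) = algebraMap L L' (b : L) := h1
    exact Subtype.ext ((algebraMap L L').injective h2)
  obtain ⟨Q, hQmax, hQ⟩ := Ideal.exists_ideal_over_maximal_of_isIntegral (S := B)
    (IsLocalRing.maximalIdeal v.ring) (by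
      rw [(RingHom.injective_iff_ker_eq_bot _).1 hinj]
      exact bot_le)
  let π₀ : v.ring := ⟨π, Or.inr (by omega)⟩
  have hπ₀ : π₀ ∈ IsLocalRing.maximalIdeal v.ring := by
    rw [IsLocalRing.mem_maximalIdeal]
    rintro ⟨w, hw⟩
    have h1 : (π₀ : L) * ((w⁻¹ : v.ringˣ) : v.ring) = 1 := by
      rw [← hw]
      exact congrArg (Subtype.val : v.ring → L) w.mul_inv
    have h3 : (((w⁻¹ : v.ringˣ) : v.ring) : L) ≠ 0 := right_ne_zero_of_mul_eq_one h1
    have h4 := v.map_mul _ _ hπ h3
    have h5 : v.v (π * ((w⁻¹ : v.ringˣ) : v.ring)) = 0 := by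
      have : π * (((w⁻¹ : v.ringˣ) : v.ring) : L) = 1 := h1
      rw [this, v.map_one]
    have h6 : 0 ≤ v.v (((w⁻¹ : v.ringˣ) : v.ring) : L) :=
      ((w⁻¹ : v.ringˣ) : v.ring).2.resolve_left h3
    omega
  have hπQ : algebraMap v.ring B π₀ ∈ Q := by
    have : π₀ ∈ Q.comap (algebraMap v.ring B) := by rw [hQ]; exact hπ₀
    exact this
  have hπB : algebraMap v.ring B π₀ ≠ 0 := by
    intro h
    have : π₀ = 0 := hinj (by rw [h, map_zero])
    exact hπ (congrArg (Subtype.val : v.ring → L) this)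
  let P : HeightOneSpectrum B := ⟨Q, hQmax.isPrime, fun h => hπB (by rw [h] at hπQ; exact hπQ)⟩
  have hcoe : ∀ a : v.ring, algebraMap B L' (algebraMap v.ring B a) = algebraMap L L' (a : L) :=
    fun a => rfl
  have hunit : ∀ u : L, u ≠ 0 → v.v u = 0 → hsVal P L' (algebraMap L L' u) = 0 := by
    intro u hu h0
    obtain ⟨h1, h2⟩ := mem_ring_unit v hu h0
    have h3 := hsVal_nonneg P (K := L') (algebraMap v.ring B ⟨u, h1⟩)
    have h4 := hsVal_nonneg P (K := L') (algebraMap v.ring B ⟨u⁻¹, h2⟩)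
    rw [hcoe] at h3 h4
    have h5 := hsVal_mul P (K := L') (a := algebraMap L L' u) (b := algebraMap L L' u⁻¹)
      (by simpa using hu) (by simpa using hu)
    rw [← _root_.map_mul, mul_inv_cancel₀ hu, _root_.map_one] at h5
    have h6 : hsVal P L' (1 : L') = 0 := by simp [hsVal]
    dsimp only at h3 h4
    omega
  have hπval : 0 < hsVal P L' (algebraMap L L' π) := by
    have := hsVal_pos P (K := L') (b := algebraMap v.ring B π₀)
      (by rw [hcoe, Ne, map_eq_zero]; exact hπ) hπQ
    exact this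
  let v' : DVal L' :=
    { v := hsVal P L'
      map_mul := fun a b ha hb => hsVal_mul P ha hb
      map_add := fun a b ha hb hab => hsVal_add P ha hb hab
      map_const := fun c hc => by
        rw [IsScalarTower.algebraMap_apply ℂ L L']
        exact hunit _ (by simpa using hc) (v.map_const c hc)
      exists_unif := hsVal_exists_one P
      exists_res := by
        obtain ⟨t, ht⟩ := v.exists_res
        refine ⟨algebraMap L L' t, fun F hF => ?_⟩
        obtain ⟨h1, h2⟩ := ht F hF
        rw [aeval_algebraMap_apply]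
        exact ⟨by simpa using h1, hunit _ h1 h2⟩ }
  refine ⟨hsVal P L' (algebraMap L L' π), v', hπval, fun a ha => ?_⟩
  have hz : π ^ (v.v a) ≠ 0 := zpow_ne_zero _ hπ
  have h1 : v.v (a / π ^ (v.v a)) = 0 := by
    rw [v.map_div ha hz, v.map_zpow hπ, hvπ]; ring
  have h2 := hunit _ (div_ne_zero ha hz) h1
  have h3 : algebraMap L L' a = algebraMap L L' (a / π ^ (v.v a)) *
      (algebraMap L L' π) ^ (v.v a) := by
    rw [← map_zpow₀, ← _root_.map_mul, div_mul_cancel₀ _ hz]
  have hπ' : algebraMap L L' π ≠ 0 := by simpa using hπ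
  rw [h3, v'.map_mul _ _ (by rw [Ne, map_eq_zero]; exact div_ne_zero ha hz) (zpow_ne_zero _ hπ'),
    v'.map_zpow hπ']
  change hsVal P L' (algebraMap L L' (a / π ^ (v.v a))) + _ = _
  rw [h2]
  change 0 + v.v a * hsVal P L' (algebraMap L L' π) = _
  ring

end

end LCY
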