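import Pool.Agent.Helper99.LCY.Extn

/-!
Rulings of Kummer extensions (block COV of MP_f7e214_ag).
-/

open Polynomial

set_option linter.unusedSectionVars false

namespace LCY

noncomputable section

namespace H99

variable {L : Type} [Field L] [Algebra ℂ L] {L' : Type} [Field L'] [Algebra ℂ L'] [Algebra L L']
  [IsScalarTower ℂ L L']

/-- A field containing the base field and the coordinate contains everything. -/
theorem mem_of_ruling {F : IntermediateField ℂ L} {w : L}
    (h : IntermediateField.adjoin F {w} = ⊤) (K : IntermediateField ℂ L')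
    (hF : ∀ a ∈ F, algebraMap L L' a ∈ K) (hw : algebraMap L L' w ∈ K) (z : L) :
    algebraMap L L' z ∈ K := by
  have h1 : z ∈ (IntermediateField.adjoin F {w}).restrictScalars ℂ := by
    rw [h]
    trivial
  rw [IntermediateField.restrictScalars_adjoin] at h1
  have h2 : IntermediateField.adjoin ℂ ((F : Set L) ∪ {w}) ≤
      K.comap (IsScalarTower.toAlgHom ℂ L L') := by
    rw [IntermediateField.adjoin_le_iff]
    rintro y (hy | hy)
    · exact hF y hy
    · rw [Set.mem_singleton_iff.1 hy]
      exact hw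
  exact h2 h1

/-- A field that contains the image of `L` and the root is everything. -/
theorem top_of_mem {m : ℕ} {g : L} (κ : Kum L L' m g) (K : IntermediateField ℂ L')
    (hL : ∀ z : L, algebraMap L L' z ∈ K) (hη : κ.η ∈ K) (b : L') : b ∈ K := by
  obtain ⟨a, rfl⟩ := κ.exists_el b
  exact sum_mem fun j _ => mul_mem (hL _) (pow_mem hη _)

/-- The image of the base field. -/
def img (L' : Type) [Field L'] [Algebra ℂ L'] [Algebra L L'] [IsScalarTower ℂ L L']
    (F : IntermediateField ℂ L) : IntermediateField ℂ L' := F.map (IsScalarTower.toAlgHom ℂ L L')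

theorem mem_img {F : IntermediateField ℂ L} {a : L} (ha : a ∈ F) : algebraMap L L' a ∈ img L' F :=
  ⟨a, ha, rfl⟩

theorem trdeg_img {F : IntermediateField ℂ L} (h : Algebra.trdeg ℂ F = 1) :
    Algebra.trdeg ℂ (img L' F) = 1 := by
  rw [← h]
  exact (AlgEquiv.trdeg_eq (F.equivMap (IsScalarTower.toAlgHom ℂ L L'))).symm

/-- The Kummer extension of a constant times an `m`-th power. -/
theorem ruling_const {m : ℕ} {g : L} (κ : Kum L L' m g) {F : IntermediateField ℂ L} {w : L}
    (hR : IsRuling F w) {a h : L} (ha : a ∈ F) (hh : h ≠ 0) (hg : g = a * h ^ m) :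
    ∃ (E : IntermediateField ℂ L') (t : L'), IsRuling E t := by
  obtain ⟨htr, htop⟩ := hR
  have hh' : algebraMap L L' h ≠ 0 := by simpa using hh
  set θ : L' := κ.η / algebraMap L L' h with hθ
  have hθm : θ ^ m = algebraMap L L' a := by
    rw [hθ, div_pow, κ.pow, hg, map_mul, map_pow, mul_div_cancel_right₀ _ (pow_ne_zero _ hh')]
  have hm := κ.m_ne
  set F' := img L' F with hF'
  set E : IntermediateField F' L' := IntermediateField.adjoin F' {θ} with hE
  have hint : IsIntegral F' θ := by
    refine ⟨X ^ m - C ⟨_, mem_img ha⟩, monic_X_pow_sub_C _ hm, ?_⟩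
    rw [eval₂_sub, eval₂_X_pow, eval₂_C, hθm]
    exact sub_self _
  have halg : Algebra.IsAlgebraic F' E :=
    IntermediateField.isAlgebraic_adjoin (fun y hy => by rw [Set.mem_singleton_iff.1 hy]; exact hint)
  have htrE : Algebra.trdeg ℂ E = 1 := by
    have h1 := _root_.trdeg_add_eq ℂ F' (A := E)
    rw [← h1, trdeg_img htr, _root_.trdeg_eq_zero, add_zero]
  refine ⟨E.restrictScalars ℂ, algebraMap L L' w, htrE, ?_⟩
  rw [eq_top_iff]
  intro b _
  set K : IntermediateField ℂ L' := (IntermediateField.adjoin (E.restrictScalars ℂ)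
    {algebraMap L L' w}).restrictScalars ℂ with hK
  have hEK : ∀ y ∈ E, y ∈ K := fun y hy =>
    (IntermediateField.adjoin (E.restrictScalars ℂ) {algebraMap L L' w}).algebraMap_mem ⟨y, hy⟩
  have hFK : ∀ y ∈ F, algebraMap L L' y ∈ K := fun y hy =>
    hEK _ (E.algebraMap_mem ⟨_, mem_img hy⟩)
  have hwK : algebraMap L L' w ∈ K := IntermediateField.mem_adjoin_simple_self _ _
  have hL := mem_of_ruling htop K hFK hwK
  have hη : κ.η ∈ K := by
    have h1 : κ.η = θ * algebraMap L L' h := by rw [hθ, div_mul_cancel₀ _ hh']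
    rw [h1]
    exact mul_mem (hEK _ (IntermediateField.mem_adjoin_simple_self _ _)) (hL h)
  exact top_of_mem κ K hL hη b

/-- The Kummer extension of a power of the coordinate. -/
theorem ruling_pow {m : ℕ} {g : L} (κ : Kum L L' m g) (hg0 : g ≠ 0) {F : IntermediateField ℂ L}
    {w : L} (hw0 : w ≠ 0) (hR : IsRuling F w) {a h : L} (ha : a ∈ F) {n : ℤ}
    (hn : IsCoprime n (m : ℤ)) (hg : g = a * w ^ n * h ^ m) :
    ∃ (E : IntermediateField ℂ L') (t : L'), IsRuling E t := by
  obtain ⟨htr, htop⟩ := hR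
  have hm := κ.m_ne
  have ha0 : a ≠ 0 := by
    rintro rfl
    rw [zero_mul, zero_mul] at hg
    exact hg0 hg
  have hh0 : h ≠ 0 := by
    rintro rfl
    rw [zero_pow hm, mul_zero] at hg
    exact hg0 hg
  obtain ⟨u, v, huv⟩ := hn
  have hh' : algebraMap L L' h ≠ 0 := by simpa using hh0
  have ha' : algebraMap L L' a ≠ 0 := by simpa using ha0
  have hw' : algebraMap L L' w ≠ 0 := by simpa using hw0
  set A : L' := algebraMap L L' a with hA
  set W : L' := algebraMap L L' w with hW
  set θ : L' := κ.η / algebraMap L L' h with hθ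
  have hθ0 : θ ≠ 0 := div_ne_zero (κ.η_ne hg0) hh'
  have hθm : θ ^ (m : ℤ) = A * W ^ n := by
    rw [zpow_natCast, hθ, div_pow, κ.pow, hg, map_mul, map_pow,
      mul_div_cancel_right₀ _ (pow_ne_zero _ hh'), map_mul, map_zpow₀]
  set y : L' := θ ^ u * W ^ v with hy
  have hyW : W = y ^ m * A ^ (-u) := by
    have h1 : y ^ (m : ℤ) = A ^ u * W := by
      rw [hy, mul_zpow, ← zpow_mul, ← zpow_mul, mul_comm u, zpow_mul, hθm, mul_zpow, ← zpow_mul,
        mul_assoc, ← zpow_add₀ hw', show n * u + v * m = 1 by linarith, zpow_one]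
    rw [← zpow_natCast, h1, zpow_neg]
    field_simp
  have hyθ : θ = y ^ n * A ^ v := by
    have h1 : θ = θ ^ (u * n) * θ ^ (m * v : ℤ) := by
      rw [← zpow_add₀ hθ0, show u * n + m * v = 1 by linarith, zpow_one]
    have h2 : θ ^ (m * v : ℤ) = A ^ v * W ^ (n * v) := by
      rw [zpow_mul, hθm, mul_zpow, ← zpow_mul]
    rw [h2] at h1
    rw [hy, mul_zpow, ← zpow_mul, ← zpow_mul, mul_comm v n]
    linear_combination h1
  refine ⟨img L' F, y, trdeg_img htr, ?_⟩
  rw [eq_top_iff]
  intro b _
  set K : IntermediateField ℂ L' :=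
    (IntermediateField.adjoin (img L' F) {y}).restrictScalars ℂ with hK
  have hFK : ∀ z ∈ F, algebraMap L L' z ∈ K := fun z hz =>
    (IntermediateField.adjoin (img L' F) {y}).algebraMap_mem ⟨_, mem_img hz⟩
  have hyK : y ∈ K := IntermediateField.mem_adjoin_simple_self _ _
  have hWK : W ∈ K := by
    rw [hyW]
    exact mul_mem (pow_mem hyK _) (zpow_mem (hFK a ha) _)
  have hL := mem_of_ruling htop K hFK hWK
  have hη : κ.η ∈ K := by
    have h1 : κ.η = θ * algebraMap L L' h := by rw [hθ, div_mul_cancel₀ _ hh']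
    rw [h1]
    refine mul_mem ?_ (hL h)
    rw [hyθ]
    exact mul_mem (zpow_mem hyK _) (zpow_mem (hFK a ha) _)
  exact top_of_mem κ K hL hη b

end H99

end

end LCY
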