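import Pool.Agent.Helper99.LCY.RulA
import Pool.Agent.Helper2.LCY.E1b
import Pool.Agent.Helper62.LCY.B1

/-!
Rulings of Kummer extensions: pencils of lines (block COV of MP_f7e214_ag).
-/

open Polynomial

set_option linter.unusedSectionVars false

namespace LCY

noncomputable section

namespace H99

open H62

variable {L : Type} [Field L] [Algebra ℂ L]

theorem mult_self_pow {p : ℂ[X][X]} (hp : Prime p) (n : ℕ) : multiplicity p (p ^ n) = n :=
  multiplicity_pow_self hp.ne_zero hp.not_isUnit n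

theorem exists_split {p : ℂ[X][X]} (hp : Prime p) {G : ℂ[X][X]} (hG : G ≠ 0) :
    ∃ G' : ℂ[X][X], G = p ^ multiplicity p G * G' ∧ ¬ p ∣ G' ∧ G' ≠ 0 := by
  obtain ⟨G', h1, h2⟩ := (fin_mult hp hG).exists_eq_pow_mul_and_not_dvd
  refine ⟨G', h1, h2, ?_⟩
  rintro rfl
  exact h2 (dvd_zero _)

/-- A polynomial of positive degree has a prime factor of positive degree. -/
theorem exists_prime_pos {G : ℂ[X][X]} (hG : G ≠ 0) (hd : 1 ≤ G.natDegree) :
    ∃ p, Prime p ∧ 1 ≤ p.natDegree ∧ p ∣ G := by
  induction G using UniqueFactorizationMonoid.induction_on_prime with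
  | h₁ => exact absurd rfl hG
  | h₂ u hu =>
    rw [natDegree_eq_zero_of_isUnit hu] at hd
    omega
  | h₃ a p ha hp ih =>
    rw [natDegree_mul hp.ne_zero ha] at hd
    by_cases h0 : 1 ≤ p.natDegree
    · exact ⟨p, hp, h0, dvd_mul_right _ _⟩
    · obtain ⟨q, h1, h2, h3⟩ := ih ha (by omega)
      exact ⟨q, h1, h2, h3.mul_left _⟩

/-- The base field of the pencil. -/
def bf (S : Coord L) : IntermediateField ℂ L := IntermediateField.adjoin ℂ {S.x}

theorem isRuling_bf (S : Coord L) : IsRuling (bf S) S.y := by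
  unfold bf
  exact H2.isRuling S

theorem aeval_mem_bf (S : Coord L) (p : ℂ[X]) : aeval S.x p ∈ bf S :=
  (IntermediateField.mem_adjoin_simple_iff ℂ _).2 ⟨p, 1, by simp⟩

theorem natDegree_zero_of_unit_mul {G : ℂ[X][X]} (h : G.natDegree = 0) (S : Coord L) :
    ev S.x S.y G ∈ bf S := by
  rw [eq_C_of_natDegree_eq_zero h, ev_C]
  exact aeval_mem_bf S _

/-- If all multiplicities of prime factors of positive degree are divisible by `m`, the
polynomial is an `m`-th power up to a constant of the base field. -/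
theorem const_pow (S : Coord L) (m : ℕ) :
    ∀ (n : ℕ) (G : ℂ[X][X]), G.natDegree ≤ n → G ≠ 0 →
      (∀ p, Prime p → 1 ≤ p.natDegree → m ∣ multiplicity p G) →
      ∃ a ∈ bf S, ∃ h : L, h ≠ 0 ∧ ev S.x S.y G = a * h ^ m := by
  intro n
  induction n using Nat.strong_induction_on with
  | _ n ih =>
    intro G hn hG hm
    by_cases hd : G.natDegree = 0
    · exact ⟨_, natDegree_zero_of_unit_mul hd S, 1, one_ne_zero, by rw [one_pow, mul_one]⟩
    obtain ⟨p, hp, hpd, hdvd⟩ := exists_prime_pos hG (by omega)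
    obtain ⟨G', h1, h2, h3⟩ := exists_split hp hG
    obtain ⟨q, hq⟩ := hm p hp hpd
    have hpos : 1 ≤ multiplicity p G := by
      rw [← le_mult hp hG, pow_one]
      exact hdvd
    have hdeg : G.natDegree = multiplicity p G * p.natDegree + G'.natDegree := by
      conv_lhs => rw [h1]
      rw [natDegree_mul (pow_ne_zero _ hp.ne_zero) h3, natDegree_pow]
    have hlt : G'.natDegree < n := by
      have : 1 ≤ multiplicity p G * p.natDegree := Nat.mul_pos hpos hpd
      omega
    obtain ⟨a, ha, h, hh, he⟩ := ih _ hlt G' le_rfl h3 (by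
      intro r hr hrd
      have h4 := hm r hr hrd
      rw [h1, mult_mul hr (pow_ne_zero _ hp.ne_zero) h3] at h4
      have h5 : m ∣ multiplicity r (p ^ multiplicity p G) := by
        have h6 : ∀ k : ℕ, multiplicity r (p ^ k) = k * multiplicity r p := by
          intro k
          induction k with
          | zero =>
            rw [pow_zero, zero_mul]
            exact mult_zero fun h => hr.not_isUnit (isUnit_of_dvd_one h)
          | succ k ih =>
            rw [pow_succ, mult_mul hr (pow_ne_zero _ hp.ne_zero) hp.ne_zero, ih]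
            ring
        rw [h6, hq]
        exact ⟨q * multiplicity r p, by ring⟩
      exact (Nat.dvd_add_right h5).1 h4)
    refine ⟨a, ha, (ev S.x S.y p) ^ q * h, mul_ne_zero (pow_ne_zero _ (S.ne hp.ne_zero)) hh, ?_⟩
    rw [h1, map_mul, map_pow, he, hq]
    ring

/-- The prime polynomials of two places that agree are associated. -/
theorem dvd_of_same {S : Coord L} {p q : ℂ[X][X]} (hp : Prime p) (hq : Prime q)
    (h : (S.pval p hp).Same (S.pval q hq)) : q ∣ p := by
  by_contra hcon
  have h1 := h _ (S.ne hp.ne_zero)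
  rw [S.pval_ev hp hp.ne_zero, S.pval_ev hq hp.ne_zero, mult_zero hcon, multiplicity_self] at h1
  norm_num at h1

theorem mult_of_not_dvd_prime {p q : ℂ[X][X]} (hq : Prime q) (h : ¬ q ∣ p)
    (n : ℕ) : multiplicity q (p ^ n) = 0 :=
  mult_zero fun h1 => h (hq.dvd_of_dvd_pow h1)

/-- Change of the coordinate. -/
theorem ruling_of_mem {F : IntermediateField ℂ L} {w W : L} (h : IsRuling F w)
    (hW : ∀ K : IntermediateField ℂ L, (∀ a ∈ F, a ∈ K) → W ∈ K → w ∈ K) : IsRuling F W := by
  obtain ⟨h1, h2⟩ := h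
  refine ⟨h1, ?_⟩
  rw [eq_top_iff]
  intro z _
  have hF : ∀ a ∈ F, a ∈ (IntermediateField.adjoin F {W}).restrictScalars ℂ := fun a ha =>
    (IntermediateField.adjoin F {W}).algebraMap_mem ⟨a, ha⟩
  have hw : W ∈ (IntermediateField.adjoin F {W}).restrictScalars ℂ :=
    IntermediateField.mem_adjoin_simple_self F W
  exact mem_of_ruling (L' := L) h2 _ hF (hW _ hF hw) z

/-- Linear polynomials are coordinates. -/
theorem ruling_linear (S : Coord L) {p : ℂ[X][X]} (hp : p.natDegree = 1) :
    IsRuling (bf S) (ev S.x S.y p) := by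
  refine ruling_of_mem (isRuling_bf S) fun K hF hw => ?_
  have hlc : p.coeff 1 ≠ 0 := by
    rw [← hp]
    exact leadingCoeff_ne_zero.2 (by rintro rfl; simp at hp)
  have he : ev S.x S.y p = aeval S.x (p.coeff 1) * S.y + aeval S.x (p.coeff 0) := by
    conv_lhs => rw [eq_X_add_C_of_natDegree_le_one hp.le]
    rw [map_add, map_mul, ev_C, ev_X, ev_C]
  have hne := S.trans_x hlc
  have h3 : S.y = (ev S.x S.y p - aeval S.x (p.coeff 0)) / aeval S.x (p.coeff 1) := by
    rw [he]
    field_simp
    ring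
  rw [h3]
  exact div_mem (sub_mem hw (hF _ (aeval_mem_bf S _))) (hF _ (aeval_mem_bf S _))

/-- Quotients of linear polynomials are coordinates. -/
theorem ruling_quot (S : Coord L) {p q : ℂ[X][X]} (hp : p.natDegree = 1) (hq : q.natDegree = 1)
    (hpp : Prime p) (hpq : ¬ p ∣ q) :
    IsRuling (bf S) (ev S.x S.y p / ev S.x S.y q) := by
  refine ruling_of_mem (isRuling_bf S) fun K hF hw => ?_
  have hlp : p.coeff 1 ≠ 0 := by
    rw [← hp]
    exact leadingCoeff_ne_zero.2 (by rintro rfl; simp at hp)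
  have hlq : q.coeff 1 ≠ 0 := by
    rw [← hq]
    exact leadingCoeff_ne_zero.2 (by rintro rfl; simp at hq)
  have hep : ev S.x S.y p = aeval S.x (p.coeff 1) * S.y + aeval S.x (p.coeff 0) := by
    conv_lhs => rw [eq_X_add_C_of_natDegree_le_one hp.le]
    rw [map_add, map_mul, ev_C, ev_X, ev_C]
  have heq : ev S.x S.y q = aeval S.x (q.coeff 1) * S.y + aeval S.x (q.coeff 0) := by
    conv_lhs => rw [eq_X_add_C_of_natDegree_le_one hq.le]
    rw [map_add, map_mul, ev_C, ev_X, ev_C]
  have hq0 : q ≠ 0 := by rintro rfl; simp at hq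
  have hqne := S.ne hq0
  obtain ⟨W, hW⟩ : ∃ W, W = ev S.x S.y p / ev S.x S.y q := ⟨_, rfl⟩
  rw [← hW] at hw
  have h3 : W * ev S.x S.y q = ev S.x S.y p := by rw [hW, div_mul_cancel₀ _ hqne]
  have hne : W * aeval S.x (q.coeff 1) - aeval S.x (p.coeff 1) ≠ 0 := by
    intro h0
    have h4 : aeval S.x (q.coeff 1) * ev S.x S.y p = aeval S.x (p.coeff 1) * ev S.x S.y q := by
      rw [← h3]
      linear_combination (ev S.x S.y q) * h0
    have h5 : C (q.coeff 1) * p = C (p.coeff 1) * q := by
      rw [← sub_eq_zero]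
      apply S.inj
      rw [map_sub, map_mul, map_mul, ev_C, ev_C, h4, sub_self]
    have h6 : p ∣ C (p.coeff 1) * q := ⟨C (q.coeff 1), by rw [← h5]; ring⟩
    rcases hpp.dvd_or_dvd h6 with h7 | h7
    · have h8 := natDegree_le_of_dvd h7 (by rw [Ne, C_eq_zero]; exact hlp)
      rw [natDegree_C, hp] at h8
      omega
    · exact hpq h7
  have h4 : S.y = (aeval S.x (p.coeff 0) - W * aeval S.x (q.coeff 0)) /
      (W * aeval S.x (q.coeff 1) - aeval S.x (p.coeff 1)) := by
    rw [eq_div_iff hne]
    rw [hep, heq] at h3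
    linear_combination h3
  rw [h4]
  have m1 := fun r => hF _ (aeval_mem_bf S r)
  exact div_mem (sub_mem (m1 _) (mul_mem hw (m1 _))) (sub_mem (mul_mem hw (m1 _)) (m1 _))

end H99

end

end LCY
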